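import Mathlib

/-!
# Counting for full Hadwiger on three cliques: the case of at least `2 chi` vertices

Equality cases of the Tutte-Berge count.
-/

set_option autoImplicit false

namespace Pool.Agent.T3F

open Finset
open scoped Classical

theorem arith2 {I : Type} [Fintype I] (u k : ℕ) (x : Fin 3 → I → ℕ) (n : I → ℕ)
    (hx : ∀ i, x 0 i + x 1 i + x 2 i = n i)
    (hsep : ∀ (a : Fin 3) (J : Finset I), (∃ i ∈ J, 0 < x a i) → (∃ i, i ∉ J ∧ x a i < n i) →
      k + 1 ≤ u + ∑ i, (if i ∈ J then n i - x a i else x a i))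
    (hclq : ∀ a, ∑ i, x a i ≤ k)
    (hn : 2 * (k + 1) ≤ u + ∑ i, n i) (hU : u + ∑ i, n i / 2 ≤ k) :
    (3 ≤ (univ.filter (fun i => 0 < n i)).card ∧ ∀ i, 0 < n i → n i = 3 ∧ ∀ a, x a i = 1) ∨
    (u = 0 ∧ ∃ i j, i ≠ j ∧ (∀ l, l ≠ i → l ≠ j → n l = 0) ∧ n i = k + 1 ∧ n j = k + 1 ∧
      ∀ a, x a i = x a j ∧ 2 * x a i ≤ k ∧ 0 < x a i) := by
  have hle : ∀ a i, x a i ≤ n i := by
    intro a i
    have := hx i
    fin_cases a <;> simp <;> omega
  -- two nonempty components
  obtain ⟨i0, j0, hij0, hi0, hj0⟩ : ∃ i j, i ≠ j ∧ 0 < n i ∧ 0 < n j := by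
    by_contra hcon
    push Not at hcon
    by_cases hex : ∃ i, 0 < n i
    · obtain ⟨i, hi⟩ := hex
      have hz : ∀ j, j ≠ i → n j = 0 := fun j hj => by
        have := hcon i j (Ne.symm hj) hi
        omega
      have h1 : ∑ j, n j = n i := Finset.sum_eq_single i (fun j _ hj => hz j hj) (fun h => absurd (mem_univ _) h)
      have h2 : ∑ j, n j / 2 = n i / 2 := Finset.sum_eq_single i (fun j _ hj => by rw [hz j hj]; rfl)
        (fun h => absurd (mem_univ _) h)
      omega
    · push Not at hex
      have h1 : ∑ j, n j = 0 := Finset.sum_eq_zero (fun j _ => by have := hex j; omega)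
      omega
  -- no heavy-light pair
  have claim1 : ∀ (a : Fin 3) (i j : I), i ≠ j → 0 < n i → 0 < n j → n i ≤ 2 * x a i → 2 * x a j ≤ n j → False := by
    intro a i j hij hi hj h1 h2
    have h3 := hsep a (univ.filter (fun l => l ≠ j ∧ n l ≤ 2 * x a l))
      ⟨i, mem_filter.2 ⟨mem_univ _, hij, h1⟩, by omega⟩
      ⟨j, fun h => (mem_filter.1 h).2.1 rfl, by omega⟩
    have h4 : ∑ l, (if l ∈ (univ.filter (fun l => l ≠ j ∧ n l ≤ 2 * x a l)) then n l - x a l else x a l) ≤
        ∑ l, n l / 2 := by
      apply Finset.sum_le_sum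
      intro l _
      by_cases hl : l ∈ (univ.filter (fun l => l ≠ j ∧ n l ≤ 2 * x a l))
      · rw [if_pos hl]
        have := (mem_filter.1 hl).2.2
        omega
      · rw [if_neg hl]
        by_cases hlj : l = j
        · rw [hlj]; omega
        · have : ¬ n l ≤ 2 * x a l := fun h => hl (mem_filter.2 ⟨mem_univ _, hlj, h⟩)
          omega
    omega
  have claim2 : ∀ a : Fin 3, (∀ i, 0 < n i → n i < 2 * x a i) ∨ (∀ i, 0 < n i → 2 * x a i < n i) := by
    intro a
    by_cases h : n i0 ≤ 2 * x a i0
    · left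
      have h1 : ∀ j, j ≠ i0 → 0 < n j → n j < 2 * x a j := by
        intro j hj hnj
        by_contra hc
        exact claim1 a i0 j (Ne.symm hj) hi0 hnj h (by omega)
      intro i hi
      by_cases hii : i = i0
      · subst hii
        by_contra hc
        have := h1 j0 (Ne.symm hij0) hj0
        exact claim1 a j0 i (Ne.symm hij0) hj0 hi (by omega) (by omega)
      · exact h1 i hii hi
    · right
      intro i hi
      by_cases hii : i = i0
      · subst hii; omega
      · by_contra hc
        exact claim1 a i i0 hii hi hi0 (by omega) (by omega)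
  -- the parity of the components
  have hsplit : ∑ i, n i = ∑ i, n i / 2 + ∑ i, (n i - n i / 2) := by
    rw [← Finset.sum_add_distrib]
    apply Finset.sum_congr rfl
    intro i _
    omega
  -- no heavy index
  have claim3 : ∀ a : Fin 3, ∀ i, 0 < n i → 2 * x a i < n i := by
    intro a
    rcases claim2 a with h | h
    · exfalso
      have h1 := hclq a
      have h2 : ∑ i, (n i - n i / 2) ≤ ∑ i, x a i := by
        apply Finset.sum_le_sum
        intro i _
        rcases Nat.eq_zero_or_pos (n i) with h3 | h3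
        · omega
        · have := h i h3; omega
      omega
    · exact h
  have hxpos : ∀ a i, 0 < n i → 0 < x a i := by
    intro a i hi
    have h0 := claim3 0 i hi
    have h1 := claim3 1 i hi
    have h2 := claim3 2 i hi
    have := hx i
    fin_cases a <;> simp <;> omega
  -- the separations
  have hE : ∀ a i j, i ≠ j → 0 < n i → 0 < n j →
      (∑ l ∈ (univ.erase i).erase j, (n l / 2 - x a l)) + (n j / 2 - x a j) + 1 ≤ n i - n i / 2 - x a i := by
    intro a i1 i2 hne hi1 hi2
    have h3 := hsep a {i1} ⟨i1, mem_singleton_self _, hxpos a i1 hi1⟩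
      ⟨i2, fun h => hne (mem_singleton.1 h).symm, by have := claim3 a i2 hi2; omega⟩
    have h4 : ∑ i, (if i ∈ ({i1} : Finset I) then n i - x a i else x a i) =
        (n i1 - x a i1) + ∑ i ∈ univ.erase i1, x a i := by
      rw [← Finset.add_sum_erase univ _ (mem_univ i1), if_pos (mem_singleton_self _)]
      congr 1
      apply Finset.sum_congr rfl
      intro i hi
      rw [if_neg]
      rw [mem_singleton]
      exact (mem_erase.1 hi).1
    have h5 : ∑ i, n i / 2 = n i1 / 2 + ∑ i ∈ univ.erase i1, n i / 2 :=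
      (Finset.add_sum_erase univ _ (mem_univ i1)).symm
    have hi2e : i2 ∈ univ.erase i1 := mem_erase.2 ⟨Ne.symm hne, mem_univ _⟩
    have h6 : ∑ i ∈ univ.erase i1, n i / 2 = n i2 / 2 + ∑ i ∈ (univ.erase i1).erase i2, n i / 2 :=
      (Finset.add_sum_erase _ _ hi2e).symm
    have h7 : ∑ i ∈ univ.erase i1, x a i = x a i2 + ∑ i ∈ (univ.erase i1).erase i2, x a i :=
      (Finset.add_sum_erase _ _ hi2e).symm
    have h8 : ∑ i ∈ (univ.erase i1).erase i2, n i / 2 =
        ∑ i ∈ (univ.erase i1).erase i2, (n i / 2 - x a i) + ∑ i ∈ (univ.erase i1).erase i2, x a i := by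
      rw [← Finset.sum_add_distrib]
      apply Finset.sum_congr rfl
      intro i _
      rcases Nat.eq_zero_or_pos (n i) with h | h
      · have := hle a i; omega
      · have := claim3 a i h; omega
    have h10 := claim3 a i1 hi1
    have h11 := claim3 a i2 hi2
    omega
  have hodd : ∀ i, 0 < n i → n i % 2 = 1 := by
    intro i hi
    obtain ⟨j, hj, hnj⟩ : ∃ j, j ≠ i ∧ 0 < n j := by
      by_cases h : i0 = i
      · exact ⟨j0, fun h' => hij0 (h.trans h'.symm), hj0⟩
      · exact ⟨i0, h, hi0⟩
    have h1 := hE 0 i j (Ne.symm hj) hi hnj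
    have h2 := hE 0 j i hj hnj hi
    have h3 := claim3 0 i hi
    have h4 := claim3 0 j hnj
    omega
  have heq : ∀ a i j, i ≠ j → 0 < n i → 0 < n j → n j / 2 - x a j = n i / 2 - x a i ∧
      ∑ l ∈ (univ.erase i).erase j, (n l / 2 - x a l) = 0 := by
    intro a i j hij hi hj
    have h1 := hE a i j hij hi hj
    have h2 := hE a j i (Ne.symm hij) hj hi
    have h3 := claim3 a i hi
    have h4 := claim3 a j hj
    have h5 := hodd i hi
    have h6 := hodd j hj
    constructor <;> omega
  by_cases h3 : ∃ l, l ≠ i0 ∧ l ≠ j0 ∧ 0 < n l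
  · left
    obtain ⟨l0, hl1, hl2, hl0⟩ := h3
    constructor
    · have : ({i0, j0, l0} : Finset I) ⊆ univ.filter (fun i => 0 < n i) := by
        intro i hi
        simp only [mem_insert, mem_singleton] at hi
        rw [mem_filter]
        rcases hi with rfl | rfl | rfl
        · exact ⟨mem_univ _, hi0⟩
        · exact ⟨mem_univ _, hj0⟩
        · exact ⟨mem_univ _, hl0⟩
      refine le_trans ?_ (Finset.card_le_card this)
      rw [Finset.card_eq_three.2 ⟨i0, j0, l0, hij0, Ne.symm hl1, Ne.symm hl2, rfl⟩]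
    · have hz : ∀ a, n l0 / 2 - x a l0 = 0 := by
        intro a
        have h4 := (heq a i0 j0 hij0 hi0 hj0).2
        exact Finset.sum_eq_zero_iff.1 h4 l0 (mem_erase.2 ⟨hl2, mem_erase.2 ⟨hl1, mem_univ _⟩⟩)
      have hz' : ∀ a i, 0 < n i → n i / 2 - x a i = 0 := by
        intro a i hi
        by_cases h : i = l0
        · rw [h]; exact hz a
        · have := (heq a i l0 h hi hl0).1
          rw [← this]; exact hz a
      intro i hi
      have e0 := hz' 0 i hi
      have e1 := hz' 1 i hi
      have e2 := hz' 2 i hi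
      have f0 := claim3 0 i hi
      have f1 := claim3 1 i hi
      have f2 := claim3 2 i hi
      have g := hx i
      have g' := hodd i hi
      refine ⟨by omega, ?_⟩
      intro a
      fin_cases a <;> simp <;> omega
  · right
    push Not at h3
    have hz : ∀ l, l ≠ i0 → l ≠ j0 → n l = 0 := fun l h1 h2 => by have := h3 l h1 h2; omega
    have e : ∀ a, n j0 / 2 - x a j0 = n i0 / 2 - x a i0 := fun a => (heq a i0 j0 hij0 hi0 hj0).1
    have e0 := e 0
    have e1 := e 1
    have e2 := e 2
    have gi := hx i0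
    have gj := hx j0
    have oi := hodd i0 hi0
    have oj := hodd j0 hj0
    have ci : ∀ a, 2 * x a i0 < n i0 := fun a => claim3 a i0 hi0
    have cj : ∀ a, 2 * x a j0 < n j0 := fun a => claim3 a j0 hj0
    have ci0 := ci 0
    have ci1 := ci 1
    have ci2 := ci 2
    have cj0 := cj 0
    have cj1 := cj 1
    have cj2 := cj 2
    have hnn : n i0 = n j0 := by omega
    have hj0e : j0 ∈ univ.erase i0 := mem_erase.2 ⟨Ne.symm hij0, mem_univ _⟩
    have s1 : ∑ l, n l = n i0 + n j0 := by
      rw [← Finset.add_sum_erase univ _ (mem_univ i0), ← Finset.add_sum_erase _ _ hj0e]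
      rw [Finset.sum_eq_zero (s := (univ.erase i0).erase j0)]
      · rfl
      · intro l hl
        rw [mem_erase, mem_erase] at hl
        exact hz l hl.2.1 hl.1
    have s2 : ∑ l, n l / 2 = n i0 / 2 + n j0 / 2 := by
      rw [← Finset.add_sum_erase univ _ (mem_univ i0), ← Finset.add_sum_erase _ _ hj0e]
      rw [Finset.sum_eq_zero (s := (univ.erase i0).erase j0)]
      · rfl
      · intro l hl
        rw [mem_erase, mem_erase] at hl
        have := hz l hl.2.1 hl.1
        omega
    rw [s1] at hn
    rw [s2] at hU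
    refine ⟨by omega, i0, j0, hij0, hz, by omega, by omega, ?_⟩
    intro a
    have ea := e a
    have cia := ci a
    have cja := cj a
    have pa := hxpos a i0 hi0
    refine ⟨by omega, by omega, pa⟩

end Pool.Agent.T3F
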