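import Mathlib

/-! Colouring lemmas for full Hadwiger on unions of three cliques, `n ≥ 2K`. -/

open Finset

namespace Pool.Agent.T3F

lemma fin3_one (a b c d : Fin 3) (h1 : a ≠ b) (h2 : c ≠ a) (h3 : c ≠ b) :
    ((if a = d then 1 else 0) + ((if b = d then 1 else 0) + (if c = d then 1 else 0)) : ℕ) = 1 := by
  revert a b c d
  decide

lemma fin3_count (a b c a' b' c' d : Fin 3) (h1 : a ≠ b) (h2 : c ≠ a) (h3 : c ≠ b)
    (h1' : a' ≠ b') (h2' : c' ≠ a') (h3' : c' ≠ b') :
    ((if a = d then 1 else 0) + ((if b = d then 1 else 0) + (if c' = d then 1 else 0)) : ℕ) +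
      ((if a' = d then 1 else 0) + ((if b' = d then 1 else 0) + (if c = d then 1 else 0))) = 2 := by
  have e1 := fin3_one a b c d h1 h2 h3
  have e2 := fin3_one a' b' c' d h1' h2' h3'
  omega

lemma third (a b : Fin 3) (h : a ≠ b) : ∃ c, c ≠ a ∧ c ≠ b ∧ ∀ d, d = a ∨ d = b ∨ d = c := by
  revert a b
  decide

open scoped Classical

theorem col3 {V I : Type} [Fintype V] [Fintype I] {G : SimpleGraph V} (cl : V → Fin 3)
    (U : Finset V) (comp : V → I)
    (hno : ∀ u v, u ∉ U → v ∉ U → comp u ≠ comp v → cl u ≠ cl v → ¬ G.Adj u v)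
    (hone : ∀ u v, u ∉ U → v ∉ U → comp u = comp v → cl u = cl v → u = v)
    (hq : 3 ≤ (univ.filter (fun i => ∃ v, v ∉ U ∧ comp v = i)).card) :
    G.Colorable (U.card + (univ.filter (fun i => ∃ v, v ∉ U ∧ comp v = i)).card) := by
  set J : Finset I := univ.filter (fun i => ∃ v, v ∉ U ∧ comp v = i) with hJ
  have hmem : ∀ v, v ∉ U → comp v ∈ J := by
    intro v hv
    simp only [hJ, mem_filter, mem_univ, true_and]
    exact ⟨v, hv, rfl⟩
  let e : {i // i ∈ J} ≃ Fin J.card := J.equivFin
  have hr : 0 < J.card := by omega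
  let f : V → {x // x ∈ U} ⊕ Fin J.card := fun v =>
    if h : v ∈ U then Sum.inl ⟨v, h⟩
    else Sum.inr ⟨((e ⟨comp v, hmem v h⟩).val + (cl v).val) % J.card, Nat.mod_lt _ hr⟩
  have hf : ∀ u v, G.Adj u v → f u ≠ f v := by
    intro u v huv hfe
    by_cases hu : u ∈ U
    · by_cases hv : v ∈ U
      · simp only [f, dif_pos hu, dif_pos hv, Sum.inl.injEq, Subtype.mk.injEq] at hfe
        exact huv.ne hfe
      · simp only [f, dif_pos hu, dif_neg hv] at hfe
        cases hfe
    · by_cases hv : v ∈ U
      · simp only [f, dif_neg hu, dif_pos hv] at hfe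
        cases hfe
      · simp only [f, dif_neg hu, dif_neg hv, Sum.inr.injEq, Fin.mk.injEq] at hfe
        have h1 := (e ⟨comp u, hmem u hu⟩).isLt
        have h2 := (e ⟨comp v, hmem v hv⟩).isLt
        have h3 := (cl u).isLt
        have h4 := (cl v).isLt
        by_cases hc : cl u = cl v
        · by_cases hcomp : comp u = comp v
          · exact huv.ne (hone u v hu hv hcomp hc)
          · apply hcomp
            have h5 : (e ⟨comp u, hmem u hu⟩).val = (e ⟨comp v, hmem v hv⟩).val := by
              rw [hc] at hfe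
              have := Nat.ModEq.add_right_cancel' (cl v).val (show _ ≡ _ [MOD J.card] from hfe)
              rw [Nat.ModEq, Nat.mod_eq_of_lt h1, Nat.mod_eq_of_lt h2] at this
              exact this
            have h6 := e.injective (Fin.ext h5)
            exact congrArg Subtype.val h6
        · have hcomp : comp u ≠ comp v := by
            intro hcomp
            apply hc
            have h5 : (e ⟨comp u, hmem u hu⟩).val = (e ⟨comp v, hmem v hv⟩).val := by
              have : (⟨comp u, hmem u hu⟩ : {i // i ∈ J}) = ⟨comp v, hmem v hv⟩ := Subtype.ext hcomp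
              rw [this]
            rw [h5] at hfe
            have := Nat.ModEq.add_left_cancel' (e ⟨comp v, hmem v hv⟩).val
              (show _ ≡ _ [MOD J.card] from hfe)
            rw [Nat.ModEq, Nat.mod_eq_of_lt (by omega), Nat.mod_eq_of_lt (by omega)] at this
            exact Fin.ext this
          exact hno u v hu hv hcomp hc huv
  have hcol : G.Colorable (Fintype.card ({x // x ∈ U} ⊕ Fin J.card)) :=
    SimpleGraph.Coloring.colorable (SimpleGraph.Coloring.mk f (fun {u v} h => hf u v h))
  rw [Fintype.card_sum, Fintype.card_coe, Fintype.card_fin] at hcol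
  exact hcol

/-- Two stable triples and a perfect matching by nonedges between the rests. -/
lemma core {V : Type} {G : SimpleGraph V} (cl : V → Fin 3)
    (A B T1 T2 : Finset V) {m : ℕ} (hA : A.card = m) (hB : B.card = m)
    (hcov : ∀ v, v ∈ T1 ∨ v ∈ T2 ∨ v ∈ A ∨ v ∈ B)
    (hT1 : ∀ u ∈ T1, ∀ v ∈ T1, ¬ G.Adj u v) (hT2 : ∀ u ∈ T2, ∀ v ∈ T2, ¬ G.Adj u v)
    (hAB : ∀ u ∈ A, ∀ v ∈ B, cl u ≠ cl v → ¬ G.Adj u v)
    (hle : ∀ a, (A.filter (fun v => cl v = a)).card + (B.filter (fun v => cl v = a)).card ≤ m) :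
    G.Colorable (m + 2) := by
  let t : {x // x ∈ A} → Finset V := fun x => B.filter (fun v => cl v ≠ cl x.1)
  have hall : ∀ s : Finset {x // x ∈ A}, s.card ≤ (s.biUnion t).card := by
    intro s
    have hs : s.card ≤ m := by
      calc s.card ≤ (univ : Finset {x // x ∈ A}).card := card_le_card (subset_univ _)
        _ = m := by rw [card_univ, Fintype.card_coe, hA]
    by_cases h2 : ∃ x ∈ s, ∃ y ∈ s, cl x.1 ≠ cl y.1
    · obtain ⟨x, hx, y, hy, hxy⟩ := h2
      have : B ⊆ s.biUnion t := by
        intro b hb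
        rw [mem_biUnion]
        by_cases hbx : cl b = cl x.1
        · exact ⟨y, hy, mem_filter.2 ⟨hb, by rw [hbx]; exact hxy⟩⟩
        · exact ⟨x, hx, mem_filter.2 ⟨hb, hbx⟩⟩
      calc s.card ≤ m := hs
        _ = B.card := hB.symm
        _ ≤ _ := card_le_card this
    · push Not at h2
      rcases s.eq_empty_or_nonempty with rfl | ⟨x, hx⟩
      · simp
      · have h3 : s.card ≤ (A.filter (fun v => cl v = cl x.1)).card := by
          have : (s.map ⟨Subtype.val, Subtype.val_injective⟩) ⊆
              A.filter (fun v => cl v = cl x.1) := by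
            intro v hv
            rw [mem_map] at hv
            obtain ⟨y, hy, rfl⟩ := hv
            exact mem_filter.2 ⟨y.2, h2 y hy x hx⟩
          calc s.card = (s.map ⟨Subtype.val, Subtype.val_injective⟩).card := (card_map _).symm
            _ ≤ _ := card_le_card this
        have h4 : B.filter (fun v => ¬ cl v = cl x.1) ⊆ s.biUnion t := by
          intro b hb
          rw [mem_biUnion]
          exact ⟨x, hx, hb⟩
        have h5 := card_le_card h4
        have h6 := card_filter_add_card_filter_not (s := B) (fun v => cl v = cl x.1)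
        have h7 := hle (cl x.1)
        omega
  obtain ⟨f, hf, hft⟩ := (Finset.all_card_le_biUnion_card_iff_exists_injective t).1 hall
  have hfB : ∀ x, f x ∈ B := fun x => (mem_filter.1 (hft x)).1
  have hfc : ∀ x, cl (f x) ≠ cl x.1 := fun x => (mem_filter.1 (hft x)).2
  have hsurj : ∀ b ∈ B, ∃ x, f x = b := by
    have h1 : (univ.image f) = B := by
      apply eq_of_subset_of_card_le
      · intro b hb
        rw [mem_image] at hb
        obtain ⟨x, _, rfl⟩ := hb
        exact hfB x
      · rw [card_image_of_injective _ hf, card_univ, Fintype.card_coe, hA, hB]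
    intro b hb
    rw [← h1, mem_image] at hb
    obtain ⟨x, _, hx⟩ := hb
    exact ⟨x, hx⟩
  let col : V → Option (Option {x // x ∈ A}) := fun v =>
    if v ∈ T1 then none
    else if v ∈ T2 then some none
    else if h : v ∈ A then some (some ⟨v, h⟩)
    else if h : v ∈ B then some (some (hsurj v h).choose)
    else none
  -- the class of a coloured vertex
  have h0 : ∀ v, col v = none → v ∈ T1 := by
    intro v hv
    by_contra hn
    simp only [col, if_neg hn] at hv
    by_cases h2 : v ∈ T2
    · simp [if_pos h2] at hv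
    · rw [if_neg h2] at hv
      by_cases h3 : v ∈ A
      · simp [dif_pos h3] at hv
      · rw [dif_neg h3] at hv
        by_cases h4 : v ∈ B
        · simp [dif_pos h4] at hv
        · rcases hcov v with h | h | h | h
          · exact hn h
          · exact h2 h
          · exact h3 h
          · exact h4 h
  have h1 : ∀ v, col v = some none → v ∈ T2 := by
    intro v hv
    by_contra h2
    simp only [col] at hv
    by_cases hn : v ∈ T1
    · simp [if_pos hn] at hv
    · rw [if_neg hn, if_neg h2] at hv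
      by_cases h3 : v ∈ A
      · simp [dif_pos h3] at hv
      · rw [dif_neg h3] at hv
        by_cases h4 : v ∈ B
        · simp [dif_pos h4] at hv
        · simp [dif_neg h4] at hv
  have h2 : ∀ v x, col v = some (some x) → v = x.1 ∨ (v ∈ B ∧ f x = v) := by
    intro v x hv
    simp only [col] at hv
    by_cases hn : v ∈ T1
    · simp [if_pos hn] at hv
    · rw [if_neg hn] at hv
      by_cases h2 : v ∈ T2
      · simp [if_pos h2] at hv
      · rw [if_neg h2] at hv
        by_cases h3 : v ∈ A
        · rw [dif_pos h3] at hv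
          simp only [Option.some.injEq] at hv
          left
          rw [← hv]
        · rw [dif_neg h3] at hv
          by_cases h4 : v ∈ B
          · rw [dif_pos h4] at hv
            simp only [Option.some.injEq] at hv
            right
            refine ⟨h4, ?_⟩
            rw [← hv]
            exact (hsurj v h4).choose_spec
          · simp [dif_neg h4] at hv
  have hcol : G.Colorable (Fintype.card (Option (Option {x // x ∈ A}))) := by
    refine SimpleGraph.Coloring.colorable (SimpleGraph.Coloring.mk col ?_)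
    intro u v huv he
    rcases hcu : col u with _ | (_ | x)
    · exact hT1 u (h0 u hcu) v (h0 v (he ▸ hcu)) huv
    · exact hT2 u (h1 u hcu) v (h1 v (he ▸ hcu)) huv
    · rcases h2 u x hcu with hu | ⟨hu, hu'⟩ <;> rcases h2 v x (he ▸ hcu) with hv | ⟨hv, hv'⟩
      · exact huv.ne (hu.trans hv.symm)
      · subst hu
        exact hAB x.1 x.2 v hv (by rw [← hv']; exact (hfc x).symm) huv
      · subst hv
        exact hAB x.1 x.2 u hu (by rw [← hu']; exact (hfc x).symm) huv.symm
      · exact huv.ne (hu'.symm.trans hv')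
  rw [Fintype.card_option, Fintype.card_option, Fintype.card_coe, hA] at hcol
  exact hcol

lemma filter_sdiff_card {V : Type} (X S : Finset V) (hS : S ⊆ X) (p : V → Prop)
    [DecidablePred p] :
    ((X \ S).filter p).card + (S.filter p).card = (X.filter p).card := by
  have : (X \ S).filter p = X.filter p \ S.filter p := by
    ext v
    simp only [mem_filter, mem_sdiff]
    tauto
  rw [this]
  exact card_sdiff_add_card_eq_card (filter_subset_filter p hS)

lemma card_three_filter {V : Type} (u v w : V) (huv : u ≠ v) (huw : u ≠ w) (hvw : v ≠ w)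
    (p : V → Prop) [DecidablePred p] : (({u, v, w} : Finset V).filter p).card =
      (if p u then 1 else 0) + ((if p v then 1 else 0) + (if p w then 1 else 0)) := by
  rw [card_filter, sum_insert, sum_insert, sum_singleton]
  · simpa using hvw
  · simp only [mem_insert, mem_singleton]
    rintro (h | h)
    · exact huv h
    · exact huw h

/-- Two nonedges, one in each side, with available third vertices: a colouring with `k`
colours. -/
lemma step {V : Type} {G : SimpleGraph V} (cl : V → Fin 3)
    (X Y : Finset V) {k : ℕ} (hcov : ∀ v, v ∈ X ∨ v ∈ Y) (hdis : Disjoint X Y)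
    (hno : ∀ u ∈ X, ∀ v ∈ Y, cl u ≠ cl v → ¬ G.Adj u v)
    (hxy : ∀ a, (X.filter (fun v => cl v = a)).card = (Y.filter (fun v => cl v = a)).card)
    (hx2 : ∀ a, 2 * (X.filter (fun v => cl v = a)).card ≤ k)
    (hX : X.card = k + 1) (hY : Y.card = k + 1)
    {u v w u' v' w' : V} (hu : u ∈ X) (hv : v ∈ X) (hw : w ∈ X)
    (hu' : u' ∈ Y) (hv' : v' ∈ Y) (hw' : w' ∈ Y)
    (huv : ¬ G.Adj u v) (huv' : ¬ G.Adj u' v')
    (h1 : cl u ≠ cl v) (h1' : cl u' ≠ cl v')
    (h2 : cl w' ≠ cl u) (h3 : cl w' ≠ cl v) (h2' : cl w ≠ cl u') (h3' : cl w ≠ cl v')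
    (hwu : w ≠ u) (hwv : w ≠ v) (hwu' : w' ≠ u') (hwv' : w' ≠ v') : G.Colorable k := by
  have huv0 : u ≠ v := fun h => h1 (by rw [h])
  have huv0' : u' ≠ v' := fun h => h1' (by rw [h])
  have hSX : ({u, v, w} : Finset V) ⊆ X := by
    intro x hx
    simp only [mem_insert, mem_singleton] at hx
    rcases hx with rfl | rfl | rfl <;> assumption
  have hSY : ({u', v', w'} : Finset V) ⊆ Y := by
    intro x hx
    simp only [mem_insert, mem_singleton] at hx
    rcases hx with rfl | rfl | rfl <;> assumption
  have hcS : ({u, v, w} : Finset V).card = 3 := card_eq_three.2 ⟨u, v, w, huv0, hwu.symm, hwv.symm, rfl⟩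
  have hcS' : ({u', v', w'} : Finset V).card = 3 :=
    card_eq_three.2 ⟨u', v', w', huv0', hwu'.symm, hwv'.symm, rfl⟩
  have hA := card_sdiff_add_card_eq_card hSX
  have hB := card_sdiff_add_card_eq_card hSY
  have hk3 : 2 ≤ k := by omega
  have hst : ∀ (a b c : V), ¬ G.Adj a b → ¬ G.Adj a c → ¬ G.Adj b c →
      ∀ x ∈ ({a, b, c} : Finset V), ∀ y ∈ ({a, b, c} : Finset V), ¬ G.Adj x y := by
    intro a b c hab hac hbc x hx y hy
    simp only [mem_insert, mem_singleton] at hx hy
    rcases hx with rfl | rfl | rfl <;> rcases hy with rfl | rfl | rfl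
    · exact G.irrefl
    · exact hab
    · exact hac
    · exact fun h => hab h.symm
    · exact G.irrefl
    · exact hbc
    · exact fun h => hac h.symm
    · exact fun h => hbc h.symm
    · exact G.irrefl
  have hmain : G.Colorable ((k - 2) + 2) := by
    apply core cl (X \ {u, v, w}) (Y \ {u', v', w'}) {u, v, w'} {u', v', w}
    · omega
    · omega
    · intro x
      by_cases hxS : x ∈ ({u, v, w} : Finset V)
      · simp only [mem_insert, mem_singleton] at hxS ⊢
        tauto
      · by_cases hxS' : x ∈ ({u', v', w'} : Finset V)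
        · simp only [mem_insert, mem_singleton] at hxS' ⊢
          tauto
        · rcases hcov x with h | h
          · exact Or.inr (Or.inr (Or.inl (mem_sdiff.2 ⟨h, hxS⟩)))
          · exact Or.inr (Or.inr (Or.inr (mem_sdiff.2 ⟨h, hxS'⟩)))
    · exact hst u v w' huv (hno u hu w' hw' h2.symm) (hno v hv w' hw' h3.symm)
    · exact hst u' v' w huv' (fun h => hno w hw u' hu' h2' h.symm)
        (fun h => hno w hw v' hv' h3' h.symm)
    · intro a ha b hb hab
      exact hno a (mem_sdiff.1 ha).1 b (mem_sdiff.1 hb).1 hab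
    · intro a
      have e1 := filter_sdiff_card X {u, v, w} hSX (fun x => cl x = a)
      have e2 := filter_sdiff_card Y {u', v', w'} hSY (fun x => cl x = a)
      have e3 := card_three_filter u v w huv0 hwu.symm hwv.symm (fun x => cl x = a)
      have e4 := card_three_filter u' v' w' huv0' hwu'.symm hwv'.symm (fun x => cl x = a)
      have e5 := fin3_count (cl u) (cl v) (cl w') (cl u') (cl v') (cl w) a h1 h2 h3 h1' h2' h3'
      have e6 := hxy a
      have e7 := hx2 a
      omega
  have : k - 2 + 2 = k := by omega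
  rwa [this] at hmain

theorem col2 {V : Type} [Fintype V] {G : SimpleGraph V} (cl : V → Fin 3)
    (hcl : ∀ u v, u ≠ v → cl u = cl v → G.Adj u v) (C : V → Bool) {k : ℕ}
    (hno : ∀ u v, C u ≠ C v → cl u ≠ cl v → ¬ G.Adj u v)
    (hx : ∀ a, (univ.filter (fun v => C v = true ∧ cl v = a)).card =
      (univ.filter (fun v => C v = false ∧ cl v = a)).card)
    (hx1 : ∀ a, 0 < (univ.filter (fun v => C v = true ∧ cl v = a)).card)
    (hx2 : ∀ a, 2 * (univ.filter (fun v => C v = true ∧ cl v = a)).card ≤ k)
    (hC : (univ.filter (fun v => C v = true)).card = k + 1)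
    (hc : ¬ G.Colorable k) :
    ∃ s : Finset V, s.card = k ∧ ∀ u ∈ s, ∀ v ∈ s, u ≠ v → G.Adj u v := by
  set X : Finset V := univ.filter (fun v => C v = true) with hXd
  set Y : Finset V := univ.filter (fun v => C v = false) with hYd
  have hXf : ∀ a, X.filter (fun v => cl v = a) = univ.filter (fun v => C v = true ∧ cl v = a) := by
    intro a
    rw [hXd, filter_filter]
  have hYf : ∀ a, Y.filter (fun v => cl v = a) = univ.filter (fun v => C v = false ∧ cl v = a) := by
    intro a
    rw [hYd, filter_filter]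
  have hxy : ∀ a, (X.filter (fun v => cl v = a)).card = (Y.filter (fun v => cl v = a)).card := by
    intro a
    rw [hXf, hYf]
    exact hx a
  have hx1' : ∀ a, 0 < (X.filter (fun v => cl v = a)).card := by
    intro a
    rw [hXf]
    exact hx1 a
  have hx2' : ∀ a, 2 * (X.filter (fun v => cl v = a)).card ≤ k := by
    intro a
    rw [hXf]
    exact hx2 a
  have hY : Y.card = k + 1 := by
    have e1 := card_eq_sum_card_fiberwise (f := cl) (s := X) (t := univ) (fun _ _ => mem_univ _)
    have e2 := card_eq_sum_card_fiberwise (f := cl) (s := Y) (t := univ) (fun _ _ => mem_univ _)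
    rw [e2, ← hC, e1]
    exact (sum_congr rfl (fun a _ => hxy a)).symm
  have hcov : ∀ v, v ∈ X ∨ v ∈ Y := by
    intro v
    simp only [hXd, hYd, mem_filter, mem_univ, true_and]
    cases C v <;> simp
  have hdis : Disjoint X Y := by
    rw [disjoint_left]
    intro v h1 h2
    simp only [hXd, hYd, mem_filter, mem_univ, true_and] at h1 h2
    rw [h1] at h2
    cases h2
  have hno' : ∀ u ∈ X, ∀ v ∈ Y, cl u ≠ cl v → ¬ G.Adj u v := by
    intro u hu v hv
    simp only [hXd, hYd, mem_filter, mem_univ, true_and] at hu hv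
    exact hno u v (by rw [hu, hv]; decide)
  clear_value X Y
  clear hx hx1 hx2 hno hXf hYf
  -- if a side is a clique we are done
  by_cases hQX : ∀ u ∈ X, ∀ v ∈ X, u ≠ v → G.Adj u v
  · obtain ⟨s, hs, hsc⟩ := exists_subset_card_eq (show k ≤ X.card by omega)
    exact ⟨s, hsc, fun u hu v hv h => hQX u (hs hu) v (hs hv) h⟩
  by_cases hQY : ∀ u ∈ Y, ∀ v ∈ Y, u ≠ v → G.Adj u v
  · obtain ⟨s, hs, hsc⟩ := exists_subset_card_eq (show k ≤ Y.card by omega)
    exact ⟨s, hsc, fun u hu v hv h => hQY u (hs hu) v (hs hv) h⟩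
  push Not at hQX hQY
  obtain ⟨u, hu, v, hv, huv0, huv⟩ := hQX
  obtain ⟨u', hu', v', hv', huv0', huv'⟩ := hQY
  have h1 : cl u ≠ cl v := fun h => huv (hcl u v huv0 h)
  have h1' : cl u' ≠ cl v' := fun h => huv' (hcl u' v' huv0' h)
  obtain ⟨c, hca, hcb, hc3⟩ := third _ _ h1
  obtain ⟨c', hca', hcb', hc3'⟩ := third _ _ h1'
  -- same third class is impossible
  have same : ∀ p q p' q' : V, p ∈ X → q ∈ X → p' ∈ Y → q' ∈ Y → ¬ G.Adj p q → ¬ G.Adj p' q' →
      cl p ≠ cl q → cl p' ≠ cl q' → ∀ d, d ≠ cl p → d ≠ cl q → d ≠ cl p' → d ≠ cl q' → False := by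
    intro p q p' q' hp hq hp' hq' hpq hpq' g1 g1' d d1 d2 d3 d4
    obtain ⟨w, hw⟩ := card_pos.1 (hx1' d)
    have : 0 < (Y.filter (fun v => cl v = d)).card := by rw [← hxy]; exact hx1' d
    obtain ⟨w', hw'⟩ := card_pos.1 this
    rw [mem_filter] at hw hw'
    apply hc
    refine step cl X Y hcov hdis hno' hxy hx2' hC hY hp hq hw.1 hp' hq' hw'.1 hpq hpq' g1 g1'
      ?_ ?_ ?_ ?_ ?_ ?_ ?_ ?_
    · rw [hw'.2]; exact d1
    · rw [hw'.2]; exact d2
    · rw [hw.2]; exact d3
    · rw [hw.2]; exact d4
    · rintro rfl; exact d1 hw.2.symm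
    · rintro rfl; exact d2 hw.2.symm
    · rintro rfl; exact d3 hw'.2.symm
    · rintro rfl; exact d4 hw'.2.symm
  -- a set minus a class with one vertex
  have hcardm : ∀ (Z : Finset V) (e : Fin 3), Z.card = k + 1 →
      (Z.filter (fun v => cl v = e)).card = 1 → (Z.filter (fun v => ¬ cl v = e)).card = k := by
    intro Z e hZ he
    have := card_filter_add_card_filter_not (s := Z) (fun v => cl v = e)
    omega
  by_cases hone : (X.filter (fun v => cl v = c)).card = 1
  · refine ⟨Y.filter (fun v => ¬ cl v = c), hcardm Y c hY (by rw [← hxy]; exact hone), ?_⟩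
    intro p hp q hq hpq
    rw [mem_filter] at hp hq
    by_contra hna
    have g1 : cl p ≠ cl q := fun h => hna (hcl p q hpq h)
    exact same u v p q hu hv hp.1 hq.1 huv hna h1 g1 c hca hcb (fun h => hp.2 h.symm)
      (fun h => hq.2 h.symm)
  by_cases hone' : (X.filter (fun v => cl v = c')).card = 1
  · refine ⟨X.filter (fun v => ¬ cl v = c'), hcardm X c' hC hone', ?_⟩
    intro p hp q hq hpq
    rw [mem_filter] at hp hq
    by_contra hna
    have g1 : cl p ≠ cl q := fun h => hna (hcl p q hpq h)
    exact same p q u' v' hp.1 hq.1 hu' hv' hna huv' g1 h1' c' (fun h => hp.2 h.symm)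
      (fun h => hq.2 h.symm) hca' hcb'
  -- both third classes have at least two vertices: a colouring
  exfalso
  have hpick : ∀ (Z : Finset V) (d : Fin 3) (p q : V), cl p ≠ cl q →
      1 < (Z.filter (fun v => cl v = d)).card → ∃ w ∈ Z, cl w = d ∧ w ≠ p ∧ w ≠ q := by
    intro Z d p q hpq hZ
    by_cases hp : cl p = d
    · obtain ⟨w, hw, hwp⟩ := exists_mem_ne hZ p
      rw [mem_filter] at hw
      refine ⟨w, hw.1, hw.2, hwp, ?_⟩
      rintro rfl
      exact hpq (hp.trans hw.2.symm)
    · obtain ⟨w, hw, hwq⟩ := exists_mem_ne hZ q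
      rw [mem_filter] at hw
      refine ⟨w, hw.1, hw.2, ?_, hwq⟩
      rintro rfl
      exact hp hw.2
  have p1 := hx1' c
  have p2 := hx1' c'
  obtain ⟨w', hw', hwc', hwu', hwv'⟩ := hpick Y c u' v' h1' (by rw [← hxy]; omega)
  obtain ⟨w, hw, hwc, hwu, hwv⟩ := hpick X c' u v h1 (by omega)
  apply hc
  refine step cl X Y hcov hdis hno' hxy hx2' hC hY hu hv hw hu' hv' hw' huv huv' h1 h1'
      ?_ ?_ ?_ ?_ hwu hwv hwu' hwv'
  · rw [hwc']; exact hca
  · rw [hwc']; exact hcb
  · rw [hwc]; exact hca'
  · rw [hwc]; exact hcb'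

end Pool.Agent.T3F
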