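import Mathlib
import Pool.Agent.T3.SM
import Pool.Agent.T3.Berge
import Pool.Agent.T3F.Arith
import Pool.Agent.T3F.Col

/-!
# Full Hadwiger for three cliques: the case of at least `2 chi` vertices
-/

set_option autoImplicit false

namespace Pool.Agent.T3F

open Finset Pool.Agent.CA31 Pool.Agent.CA72 Pool.Agent.CA31C Pool.Agent.T3
open scoped Classical

/-- statement of the first colouring lemma -/
def Col3Stmt : Prop := ∀ {V I : Type} [Fintype V] [Fintype I] {G : SimpleGraph V} (cl : V → Fin 3) (U : Finset V)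
    (comp : V → I) (_ : ∀ u v, u ∉ U → v ∉ U → comp u ≠ comp v → cl u ≠ cl v → ¬ G.Adj u v)
    (_ : ∀ u v, u ∉ U → v ∉ U → comp u = comp v → cl u = cl v → u = v)
    (_ : 3 ≤ (univ.filter (fun i => ∃ v, v ∉ U ∧ comp v = i)).card),
    G.Colorable (U.card + (univ.filter (fun i => ∃ v, v ∉ U ∧ comp v = i)).card)

/-- statement of the second colouring lemma -/
def Col2Stmt : Prop := ∀ {V : Type} [Fintype V] {G : SimpleGraph V} (cl : V → Fin 3)
    (_ : ∀ u v, u ≠ v → cl u = cl v → G.Adj u v) (C : V → Bool) {k : ℕ}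
    (_ : ∀ u v, C u ≠ C v → cl u ≠ cl v → ¬ G.Adj u v)
    (_ : ∀ a, (univ.filter (fun v => C v = true ∧ cl v = a)).card = (univ.filter (fun v => C v = false ∧ cl v = a)).card)
    (_ : ∀ a, 0 < (univ.filter (fun v => C v = true ∧ cl v = a)).card)
    (_ : ∀ a, 2 * (univ.filter (fun v => C v = true ∧ cl v = a)).card ≤ k)
    (_ : (univ.filter (fun v => C v = true)).card = k + 1) (_ : ¬ G.Colorable k),
    ∃ s : Finset V, s.card = k ∧ ∀ u ∈ s, ∀ v ∈ s, u ≠ v → G.Adj u v

/-- a set which is connected because it cannot be split -/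
theorem conn_of_no_split {V : Type} {G : SimpleGraph V} {X : Set V} (hX : X.Nonempty)
    (h : ∀ A B : Set V, A ∪ B = X → Disjoint A B → A.Nonempty → B.Nonempty → ∃ a ∈ A, ∃ b ∈ B, G.Adj a b) :
    (G.induce X).Connected := by
  obtain ⟨x0, hx0⟩ := hX
  have : Nonempty X := ⟨⟨x0, hx0⟩⟩
  have key : ∀ y : X, (G.induce X).Reachable ⟨x0, hx0⟩ y := by
    by_contra hcon
    push Not at hcon
    obtain ⟨y, hy⟩ := hcon
    let A : Set V := {v | ∃ hv : v ∈ X, (G.induce X).Reachable ⟨x0, hx0⟩ ⟨v, hv⟩}
    let B : Set V := {v | ∃ hv : v ∈ X, ¬ (G.induce X).Reachable ⟨x0, hx0⟩ ⟨v, hv⟩}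
    obtain ⟨a, ⟨haX, ha⟩, b, ⟨hbX, hb⟩, hab⟩ := h A B (by
        ext v
        constructor
        · rintro (⟨hv, -⟩ | ⟨hv, -⟩) <;> exact hv
        · intro hv
          by_cases hr : (G.induce X).Reachable ⟨x0, hx0⟩ ⟨v, hv⟩
          · exact Or.inl ⟨hv, hr⟩
          · exact Or.inr ⟨hv, hr⟩)
      (by
        rw [Set.disjoint_left]
        rintro v ⟨hv, h1⟩ ⟨hv', h2⟩
        exact h2 h1) ⟨x0, hx0, SimpleGraph.Reachable.refl _⟩ ⟨y.1, y.2, hy⟩
    have hadj : (G.induce X).Adj ⟨a, haX⟩ ⟨b, hbX⟩ := hab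
    exact hb (ha.trans hadj.reachable)
  refine SimpleGraph.Connected.mk ?_
  intro a b
  exact (key a).symm.trans (key b)

/-- pairwise touching disjoint edges -/
theorem hasMinor_of_pairs {V : Type} {G : SimpleGraph V} {m : ℕ} (x y : Fin m → V)
    (hxy : ∀ i, G.Adj (x i) (y i)) (hx : ∀ i j, i ≠ j → x i ≠ x j) (hy : ∀ i j, i ≠ j → y i ≠ y j)
    (hd : ∀ i j, x i ≠ y j)
    (ht : ∀ i j, i ≠ j → G.Adj (x i) (x j) ∨ G.Adj (x i) (y j) ∨ G.Adj (y i) (x j) ∨ G.Adj (y i) (y j)) :
    HasMinor G m := by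
  refine ⟨fun i => {x i} ∪ {y i}, ?_, ?_, ?_⟩
  · intro i
    exact conn_two (singleton_conn G _) (singleton_conn G _) ⟨x i, rfl, y i, rfl, hxy i⟩
  · intro i j hij
    refine Set.disjoint_union_left.2 ⟨Set.disjoint_union_right.2 ⟨?_, ?_⟩, Set.disjoint_union_right.2 ⟨?_, ?_⟩⟩
    · rw [Set.disjoint_singleton]; exact hx i j hij
    · rw [Set.disjoint_singleton]; exact hd i j
    · rw [Set.disjoint_singleton]; exact (hd j i).symm
    · rw [Set.disjoint_singleton]; exact hy i j hij
  · intro i j hij
    rcases ht i j hij with h | h | h | h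
    · exact ⟨x i, Or.inl rfl, x j, Or.inl rfl, h⟩
    · exact ⟨x i, Or.inl rfl, y j, Or.inr rfl, h⟩
    · exact ⟨y i, Or.inr rfl, x j, Or.inl rfl, h⟩
    · exact ⟨y i, Or.inr rfl, y j, Or.inr rfl, h⟩

/-- a clique of order `k` and the rest, if there are no small separators -/
theorem hasMinor_of_clique {V : Type} [Fintype V] {G : SimpleGraph V} {k : ℕ}
    (hsep : ∀ A B : Finset V, Disjoint A B → A.Nonempty → B.Nonempty → (∀ a ∈ A, ∀ b ∈ B, ¬ G.Adj a b) →
      k + 1 ≤ (univ \ (A ∪ B)).card)
    (hn : k + 1 ≤ Fintype.card V) {s : Finset V} (hs : s.card = k)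
    (hcl : ∀ u ∈ s, ∀ v ∈ s, u ≠ v → G.Adj u v) : HasMinor G (k + 1) := by
  obtain ⟨e⟩ : Nonempty (Fin k ≃ s) := ⟨(Fintype.equivFinOfCardEq (by simpa using hs)).symm⟩
  let X : Set V := {v | v ∉ s}
  have hXne : X.Nonempty := by
    by_contra h
    rw [Set.not_nonempty_iff_eq_empty] at h
    have : (univ : Finset V) ⊆ s := by
      intro v _
      by_contra hv
      have : v ∈ X := hv
      rw [h] at this
      exact this
    have := Finset.card_le_card this
    rw [Finset.card_univ] at this
    omega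
  have hconn : (G.induce X).Connected := by
    refine conn_of_no_split hXne ?_
    intro A B hAB hd hA hB
    by_contra hcon
    push Not at hcon
    obtain ⟨a0, ha0⟩ := hA
    obtain ⟨b0, hb0⟩ := hB
    have h1 := hsep (univ.filter (fun v => v ∈ A)) (univ.filter (fun v => v ∈ B)) (by
      rw [Finset.disjoint_left]
      intro v hv hv'
      exact Set.disjoint_left.1 hd (mem_filter.1 hv).2 (mem_filter.1 hv').2)
      ⟨a0, mem_filter.2 ⟨mem_univ _, ha0⟩⟩ ⟨b0, mem_filter.2 ⟨mem_univ _, hb0⟩⟩ (by
      intro a ha b hb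
      exact hcon a (mem_filter.1 ha).2 b (mem_filter.1 hb).2)
    have h2 : univ \ (univ.filter (fun v => v ∈ A) ∪ univ.filter (fun v => v ∈ B)) ⊆ s := by
      intro v hv
      by_contra hvs
      have hvX : v ∈ X := hvs
      rw [← hAB] at hvX
      rw [mem_sdiff, mem_union, mem_filter, mem_filter] at hv
      rcases hvX with h | h
      · exact hv.2 (Or.inl ⟨mem_univ _, h⟩)
      · exact hv.2 (Or.inr ⟨mem_univ _, h⟩)
    have := Finset.card_le_card h2
    omega
  have hnb : ∀ b ∈ s, ∃ v ∈ X, G.Adj b v := by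
    intro b hb
    by_contra hcon
    push Not at hcon
    obtain ⟨x0, hx0⟩ := hXne
    have h1 := hsep {b} (univ.filter (fun v => v ∉ s)) (by
      rw [Finset.disjoint_left]
      intro v hv hv'
      rw [mem_singleton] at hv
      subst hv
      exact (mem_filter.1 hv').2 hb) ⟨b, mem_singleton_self _⟩ ⟨x0, mem_filter.2 ⟨mem_univ _, hx0⟩⟩ (by
      intro a ha v hv
      rw [mem_singleton] at ha
      subst ha
      exact hcon v (mem_filter.1 hv).2)
    have h2 : univ \ ({b} ∪ univ.filter (fun v => v ∉ s)) ⊆ s := by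
      intro v hv
      by_contra hvs
      rw [mem_sdiff, mem_union, mem_filter] at hv
      exact hv.2 (Or.inr ⟨mem_univ _, hvs⟩)
    have := Finset.card_le_card h2
    omega
  let F : Fin (k + 1) → Set V := Fin.lastCases (motive := fun _ => Set V) X (fun i => ({(e i).1} : Set V))
  have hFl : F (Fin.last k) = X := Fin.lastCases_last (motive := fun _ => Set V)
  have hFc : ∀ i : Fin k, F i.castSucc = {(e i).1} := fun i => Fin.lastCases_castSucc (motive := fun _ => Set V) i
  refine ⟨F, ?_, ?_, ?_⟩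
  · intro i
    refine Fin.lastCases ?_ (fun i => ?_) i
    · rw [hFl]; exact hconn
    · rw [hFc]; exact singleton_conn G _
  · intro i j
    refine Fin.lastCases ?_ (fun i => ?_) i
    · refine Fin.lastCases ?_ (fun j => ?_) j
      · intro h; exact absurd rfl h
      · intro _
        rw [hFl, hFc, Set.disjoint_singleton_right]
        exact fun h => h (e j).2
    · refine Fin.lastCases ?_ (fun j => ?_) j
      · intro _
        rw [hFl, hFc, Set.disjoint_singleton_left]
        exact fun h => h (e i).2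
      · intro h
        rw [hFc, hFc, Set.disjoint_singleton]
        intro h'
        exact h (by rw [e.injective (Subtype.ext h')])
  · intro i j
    refine Fin.lastCases ?_ (fun i => ?_) i
    · refine Fin.lastCases ?_ (fun j => ?_) j
      · intro h; exact absurd rfl h
      · intro _
        rw [hFl, hFc]
        obtain ⟨v, hv, hbv⟩ := hnb _ (e j).2
        exact ⟨v, hv, _, rfl, hbv.symm⟩
    · refine Fin.lastCases ?_ (fun j => ?_) j
      · intro _
        rw [hFl, hFc]
        obtain ⟨v, hv, hbv⟩ := hnb _ (e i).2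
        exact ⟨_, rfl, v, hv, hbv⟩
      · intro h
        rw [hFc, hFc]
        refine ⟨_, rfl, _, rfl, hcl _ (e i).2 _ (e j).2 ?_⟩
        intro h'
        exact h (by rw [e.injective (Subtype.ext h')])

/-- the case of at least `2 chi` vertices -/
theorem big_of (hcol3 : Col3Stmt) (hcol2 : Col2Stmt) {V : Type} [Fintype V] {G : SimpleGraph V}
    (cl : V → Fin 3) (hcl : ∀ u v, u ≠ v → cl u = cl v → G.Adj u v) {k : ℕ} (hnc : ¬ G.Colorable k)
    (hsep : ∀ A B : Finset V, Disjoint A B → A.Nonempty → B.Nonempty → (∀ a ∈ A, ∀ b ∈ B, ¬ G.Adj a b) →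
      k + 1 ≤ (univ \ (A ∪ B)).card)
    (hclq : ∀ K : Finset V, (∀ x ∈ K, ∀ y ∈ K, x ≠ y → G.Adj x y) → K.card ≤ k)
    (hn : 2 * (k + 1) ≤ Fintype.card V) : HasMinor G (k + 1) := by
  let H : SimpleGraph V :=
    { Adj := fun u v => cl u ≠ cl v ∧ G.Adj u v
      symm := ⟨fun u v h => ⟨h.1.symm, h.2.symm⟩⟩
      loopless := ⟨fun u h => h.1 rfl⟩ }
  by_cases hb : ∀ (U : Finset V) (I : Type) [Fintype I] (comp : V → I),
      (∀ u v, u ∉ U → v ∉ U → comp u ≠ comp v → ¬ H.Adj u v) →
      k + 1 ≤ U.card + ∑ i, (univ.filter (fun v => v ∉ U ∧ comp v = i)).card / 2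
  · obtain ⟨x, y, h1, h2, h3⟩ := berge H (k + 1) hn hb
    refine hasMinor_of_pairs x y (fun i => (h1 i).2) (fun i j hij => (h2 i j hij).1)
      (fun i j hij => (h2 i j hij).2) h3 ?_
    intro i j hij
    have e1 := (h1 i).1
    have e2 := (h1 j).1
    have key : cl (x i) = cl (x j) ∨ cl (x i) = cl (y j) ∨ cl (y i) = cl (x j) ∨
        cl (y i) = cl (y j) := by
      revert e1 e2
      generalize cl (x i) = a
      generalize cl (y i) = b
      generalize cl (x j) = c
      generalize cl (y j) = d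
      revert a b c d
      decide
    rcases key with h | h | h | h
    · exact Or.inl (hcl _ _ (h2 i j hij).1 h)
    · exact Or.inr (Or.inl (hcl _ _ (h3 i j) h))
    · exact Or.inr (Or.inr (Or.inl (hcl _ _ (fun e => h3 j i e.symm) h)))
    · exact Or.inr (Or.inr (Or.inr (hcl _ _ (h2 i j hij).2 h)))
  · push Not at hb
    obtain ⟨U, I, hI, comp, hno', hU⟩ := hb
    have hno : ∀ u v, u ∉ U → v ∉ U → comp u ≠ comp v → cl u ≠ cl v → ¬ G.Adj u v :=
      fun u v hu hv hc hcl' hadj => hno' u v hu hv hc ⟨hcl', hadj⟩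
    let n : I → ℕ := fun i => (univ.filter (fun v => v ∉ U ∧ comp v = i)).card
    let x : Fin 3 → I → ℕ := fun a i => (univ.filter (fun v => (v ∉ U ∧ comp v = i) ∧ cl v = a)).card
    let y : Fin 3 → I → ℕ := fun a i => (univ.filter (fun v => (v ∉ U ∧ comp v = i) ∧ ¬ cl v = a)).card
    have hxy : ∀ a i, x a i + y a i = n i := by
      intro a i
      have h := Finset.card_filter_add_card_filter_not (s := univ.filter (fun v => v ∉ U ∧ comp v = i))
        (fun v => cl v = a)
      rw [filter_filter, filter_filter] at h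
      exact h
    have hx3 : ∀ i, x 0 i + x 1 i + x 2 i = n i := by
      intro i
      have h := Finset.card_eq_sum_card_fiberwise (s := univ.filter (fun v => v ∉ U ∧ comp v = i))
        (f := cl) (t := univ) (fun _ _ => mem_univ _)
      rw [Fin.sum_univ_three, filter_filter, filter_filter, filter_filter] at h
      exact h.symm
    -- sums over components
    have hsum : ∀ (p : V → Prop), (univ.filter (fun v => v ∉ U ∧ p v)).card =
        ∑ i, (univ.filter (fun v => (v ∉ U ∧ comp v = i) ∧ p v)).card := by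
      intro p
      rw [Finset.card_eq_sum_card_fiberwise (f := comp) (t := univ) (fun _ _ => mem_univ _)]
      apply Finset.sum_congr rfl
      intro i _
      congr 1
      ext v
      simp only [mem_filter, mem_univ, true_and]
      tauto
    have hVU : Fintype.card V = U.card + ∑ i, n i := by
      have h1 := hsum (fun _ => True)
      have h2 : (univ.filter (fun v => v ∉ U ∧ True)).card = Fintype.card V - U.card := by
        rw [← card_compl]
        congr 1
        ext v
        simp
      have h5 : (univ.filter (fun v => v ∉ U ∧ True)).card =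
          ∑ i, (univ.filter (fun v => (v ∉ U ∧ comp v = i) ∧ True)).card := by
        convert h1
      have h3 : ∑ i, (univ.filter (fun v => (v ∉ U ∧ comp v = i) ∧ True)).card = ∑ i, n i := by
        apply Finset.sum_congr rfl
        intro i _
        show _ = (univ.filter (fun v => v ∉ U ∧ comp v = i)).card
        congr 1
        ext v
        simp
      have h4 := card_le_univ U
      rw [h2, h3] at h5
      omega
    have hcls : ∀ a, ∑ i, x a i ≤ k := by
      intro a
      have h1 := hsum (fun v => cl v = a)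
      have h2 : ∑ i, x a i = (univ.filter (fun v => v ∉ U ∧ cl v = a)).card := by
        convert h1.symm
      rw [h2]
      exact hclq _ (fun u hu v hv huv => hcl u v huv
        ((mem_filter.1 hu).2.2.trans (mem_filter.1 hv).2.2.symm))
    have hsep' : ∀ (a : Fin 3) (J : Finset I), (∃ i ∈ J, 0 < x a i) → (∃ i, i ∉ J ∧ x a i < n i) →
        k + 1 ≤ U.card + ∑ i, (if i ∈ J then n i - x a i else x a i) := by
      rintro a J ⟨i, hiJ, hi⟩ ⟨j, hjJ, hj⟩
      let A : Finset V := univ.filter (fun v => v ∉ U ∧ comp v ∈ J ∧ cl v = a)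
      let B : Finset V := univ.filter (fun v => v ∉ U ∧ comp v ∉ J ∧ cl v ≠ a)
      have hA : A.Nonempty := by
        obtain ⟨v, hv⟩ := card_pos.1 hi
        obtain ⟨⟨h1, h2⟩, h3⟩ := (mem_filter.1 hv).2
        exact ⟨v, mem_filter.2 ⟨mem_univ _, h1, h2 ▸ hiJ, h3⟩⟩
      have hB : B.Nonempty := by
        have hy := hxy a j
        obtain ⟨v, hv⟩ := card_pos.1 (show 0 < (univ.filter (fun v => (v ∉ U ∧ comp v = j) ∧ ¬ cl v = a)).card by
          change 0 < y a j; omega)
        obtain ⟨⟨h1, h2⟩, h3⟩ := (mem_filter.1 hv).2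
        exact ⟨v, mem_filter.2 ⟨mem_univ _, h1, h2 ▸ hjJ, h3⟩⟩
      have hAB : Disjoint A B := by
        rw [Finset.disjoint_left]
        intro v hv hv'
        exact (mem_filter.1 hv').2.2.1 (mem_filter.1 hv).2.2.1
      have h1 := hsep A B hAB hA hB (by
        intro u hu v hv
        obtain ⟨-, h1, h2, h3⟩ := mem_filter.1 hu
        obtain ⟨-, h1', h2', h3'⟩ := mem_filter.1 hv
        exact hno u v h1 h1' (fun h => h2' (h ▸ h2)) (fun h => h3' (h ▸ h3)))
      refine h1.trans ?_
      have h2 : univ \ (A ∪ B) ⊆ U ∪ univ.filter (fun v => v ∉ U ∧ ((comp v ∈ J ∧ cl v ≠ a) ∨ (comp v ∉ J ∧ cl v = a))) := by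
        intro v hv
        simp only [A, B, mem_sdiff, mem_univ, true_and, mem_union, mem_filter] at hv ⊢
        by_cases h3 : v ∈ U <;> by_cases h4 : comp v ∈ J <;> by_cases h5 : cl v = a <;> simp_all
      refine (card_le_card h2).trans ((card_union_le _ _).trans (Nat.add_le_add_left ?_ _))
      have e1 : (univ.filter (fun v => v ∉ U ∧ ((comp v ∈ J ∧ cl v ≠ a) ∨ (comp v ∉ J ∧ cl v = a)))).card =
          ∑ i, (univ.filter (fun v => (v ∉ U ∧ comp v = i) ∧ ((comp v ∈ J ∧ cl v ≠ a) ∨ (comp v ∉ J ∧ cl v = a)))).card := by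
        have e0 := hsum (fun v => (comp v ∈ J ∧ cl v ≠ a) ∨ (comp v ∉ J ∧ cl v = a))
        convert e0
      rw [e1]
      apply Finset.sum_le_sum
      intro l _
      by_cases hl : l ∈ J
      · rw [if_pos hl]
        have h3 := hxy a l
        have h4 : (univ.filter (fun v => (v ∉ U ∧ comp v = l) ∧ ((comp v ∈ J ∧ cl v ≠ a) ∨ (comp v ∉ J ∧ cl v = a)))).card ≤ y a l := by
          apply card_le_card
          intro v hv
          rw [mem_filter] at hv ⊢
          obtain ⟨-, ⟨h5, h6⟩, h7 | h7⟩ := hv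
          · exact ⟨mem_univ _, ⟨h5, h6⟩, h7.2⟩
          · exact absurd (h6 ▸ hl) h7.1
        omega
      · rw [if_neg hl]
        apply card_le_card
        intro v hv
        rw [mem_filter] at hv ⊢
        obtain ⟨-, ⟨h5, h6⟩, h7 | h7⟩ := hv
        · exact absurd (h6 ▸ h7.1) hl
        · exact ⟨mem_univ _, ⟨h5, h6⟩, h7.2⟩
    have hU' : U.card + ∑ i, n i / 2 ≤ k := by
      have : U.card + ∑ i, n i / 2 < k + 1 := hU
      omega
    rcases arith2 U.card k x n hx3 hsep' hcls (by omega) hU' with ⟨hr, h1⟩ | ⟨hu0, i, j, hij, hz, hni, hnj, hxa⟩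
    · exfalso
      have hfil : (univ.filter (fun i => ∃ v, v ∉ U ∧ comp v = i)) = univ.filter (fun i => 0 < n i) := by
        ext i
        simp only [mem_filter, mem_univ, true_and]
        constructor
        · rintro ⟨v, hv⟩
          exact card_pos.2 ⟨v, mem_filter.2 ⟨mem_univ _, hv⟩⟩
        · intro hi
          obtain ⟨v, hv⟩ := card_pos.1 hi
          exact ⟨v, (mem_filter.1 hv).2⟩
      have hcol := hcol3 (G := G) cl U comp hno (by
        intro u v hu hv hc hcl'
        have hi : 0 < n (comp u) := card_pos.2 ⟨u, mem_filter.2 ⟨mem_univ _, hu, rfl⟩⟩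
        have h2 := (h1 (comp u) hi).2 (cl u)
        obtain ⟨w, hw⟩ := card_eq_one.1 h2
        have e1 : u ∈ univ.filter (fun v => (v ∉ U ∧ comp v = comp u) ∧ cl v = cl u) :=
          mem_filter.2 ⟨mem_univ _, ⟨hu, rfl⟩, rfl⟩
        have e2 : v ∈ univ.filter (fun v => (v ∉ U ∧ comp v = comp u) ∧ cl v = cl u) :=
          mem_filter.2 ⟨mem_univ _, ⟨hv, hc.symm⟩, hcl'.symm⟩
        rw [hw, mem_singleton] at e1 e2
        exact e1.trans e2.symm) (by rw [hfil]; exact hr)
      rw [hfil] at hcol
      refine hnc (hcol.mono (le_trans (Nat.add_le_add_left ?_ _) hU'))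
      rw [Finset.card_filter]
      apply Finset.sum_le_sum
      intro i _
      by_cases hi : 0 < n i
      · rw [if_pos hi]
        have := (h1 i hi).1
        omega
      · rw [if_neg hi]; exact Nat.zero_le _
    · have hU0 : U = ∅ := card_eq_zero.1 hu0
      have hall : ∀ v, v ∉ U := fun v => by rw [hU0]; exact notMem_empty v
      let C : V → Bool := fun v => decide (comp v = i)
      have hCt : ∀ v, C v = true ↔ comp v = i := fun v => decide_eq_true_iff
      have hCf : ∀ v, C v = false ↔ comp v = j := by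
        intro v
        constructor
        · intro h
          have h1 : comp v ≠ i := of_decide_eq_false h
          by_contra h2
          have h3 := hz (comp v) h1 h2
          have h4 : 0 < n (comp v) := card_pos.2 ⟨v, mem_filter.2 ⟨mem_univ _, hall v, rfl⟩⟩
          omega
        · intro h
          exact decide_eq_false (fun h' => hij (h'.symm.trans h))
      have ht : ∀ a, (univ.filter (fun v => C v = true ∧ cl v = a)).card = x a i := by
        intro a
        show _ = (univ.filter (fun v => (v ∉ U ∧ comp v = i) ∧ cl v = a)).card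
        congr 1
        ext v
        simp only [mem_filter, mem_univ, true_and, hCt]
        constructor
        · rintro ⟨h1, h2⟩; exact ⟨⟨hall v, h1⟩, h2⟩
        · rintro ⟨⟨-, h1⟩, h2⟩; exact ⟨h1, h2⟩
      have hf : ∀ a, (univ.filter (fun v => C v = false ∧ cl v = a)).card = x a j := by
        intro a
        show _ = (univ.filter (fun v => (v ∉ U ∧ comp v = j) ∧ cl v = a)).card
        congr 1
        ext v
        simp only [mem_filter, mem_univ, true_and, hCf]
        constructor
        · rintro ⟨h1, h2⟩; exact ⟨⟨hall v, h1⟩, h2⟩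
        · rintro ⟨⟨-, h1⟩, h2⟩; exact ⟨h1, h2⟩
      obtain ⟨s, hs, hscl⟩ := hcol2 (G := G) cl hcl C (k := k) (by
        intro u v hC hcl'
        refine hno u v (hall u) (hall v) ?_ hcl'
        intro h
        apply hC
        show decide (comp u = i) = decide (comp v = i)
        rw [h]) (by
        intro a
        rw [ht, hf]
        exact (hxa a).1) (by
        intro a
        rw [ht]
        exact (hxa a).2.2) (by
        intro a
        rw [ht]
        exact (hxa a).2.1) (by
        rw [← hni]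
        show _ = (univ.filter (fun v => v ∉ U ∧ comp v = i)).card
        congr 1
        ext v
        simp only [mem_filter, mem_univ, true_and, hCt]
        exact ⟨fun h => ⟨hall v, h⟩, fun h => h.2⟩) hnc
      exact hasMinor_of_clique hsep (by omega) hs hscl

/-- full Hadwiger for three cliques in the case of at least `2 chi` vertices -/
theorem big {V : Type} [Fintype V] {G : SimpleGraph V}
    (cl : V → Fin 3) (hcl : ∀ u v, u ≠ v → cl u = cl v → G.Adj u v) {k : ℕ} (hnc : ¬ G.Colorable k)
    (hsep : ∀ A B : Finset V, Disjoint A B → A.Nonempty → B.Nonempty → (∀ a ∈ A, ∀ b ∈ B, ¬ G.Adj a b) →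
      k + 1 ≤ (univ \ (A ∪ B)).card)
    (hclq : ∀ K : Finset V, (∀ x ∈ K, ∀ y ∈ K, x ≠ y → G.Adj x y) → K.card ≤ k)
    (hn : 2 * (k + 1) ≤ Fintype.card V) : HasMinor G (k + 1) :=
  big_of (fun cl U comp h1 h2 h3 => col3 cl U comp h1 h2 h3)
    (fun cl h1 C _ h2 h3 h4 h5 h6 h7 => col2 cl h1 C h2 h3 h4 h5 h6 h7) cl hcl hnc hsep hclq hn

end Pool.Agent.T3F
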