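import Mathlib

/-!
# Packing alternating cherries

`P`, `Q` disjoint finite sets, every pair `(y, z)` in `P × Q` has exactly one of two colours `g`, `h`.
A cherry is a set of three vertices with a centre that has one `g`- and one `h`-neighbour in it.
If `P`, `Q` have at least `2 q - 1` elements and both colours have a matching of size `q`, then there
are `q` disjoint cherries.
-/

set_option autoImplicit false

namespace Pool.Agent.T3F

open Finset

variable {V : Type*} [DecidableEq V]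

/-- matching inside `P × Q` in the relation `r` -/
def Mat (r : V → V → Prop) (P Q : Finset V) (M : Finset (V × V)) : Prop :=
  (∀ e ∈ M, e.1 ∈ P ∧ e.2 ∈ Q ∧ r e.1 e.2) ∧ (∀ e ∈ M, ∀ f ∈ M, e.1 = f.1 ∨ e.2 = f.2 → e = f)

/-- alternating cherry -/
def Ch (g h : V → V → Prop) (P Q X : Finset V) : Prop :=
  (∃ y ∈ P, ∃ y' ∈ P, ∃ z ∈ Q, g y z ∧ h y' z ∧ X = {y, y', z}) ∨
  (∃ y ∈ P, ∃ z ∈ Q, ∃ z' ∈ Q, g y z ∧ h y z' ∧ X = {y, z, z'})

/-- a cherry whose removal leaves matchings of size `q` in both colours -/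
def Res (g h : V → V → Prop) (P Q : Finset V) (q : ℕ) (X : Finset V) : Prop :=
  Ch g h P Q X ∧ (∃ M, Mat g (P \ X) (Q \ X) M ∧ M.card = q) ∧
    (∃ M, Mat h (P \ X) (Q \ X) M ∧ M.card = q)

theorem Ch.colour {g h : V → V → Prop} {P Q X : Finset V} (H : Ch g h P Q X) : Ch h g P Q X := by
  rcases H with ⟨y, hy, y', hy', z, hz, h1, h2, rfl⟩ | ⟨y, hy, z, hz, z', hz', h1, h2, rfl⟩
  · left
    refine ⟨y', hy', y, hy, z, hz, h2, h1, ?_⟩
    ext v; simp only [mem_insert, mem_singleton]; tauto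
  · right
    refine ⟨y, hy, z', hz', z, hz, h2, h1, ?_⟩
    ext v; simp only [mem_insert, mem_singleton]; tauto

theorem Ch.side {g h : V → V → Prop} {P Q X : Finset V}
    (H : Ch (fun a b => g b a) (fun a b => h b a) Q P X) : Ch g h P Q X := by
  rcases H with ⟨y, hy, y', hy', z, hz, h1, h2, rfl⟩ | ⟨y, hy, z, hz, z', hz', h1, h2, rfl⟩
  · right
    refine ⟨z, hz, y, hy, y', hy', h1, h2, ?_⟩
    ext v; simp only [mem_insert, mem_singleton]; tauto
  · left
    refine ⟨z, hz, z', hz', y, hy, h1, h2, ?_⟩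
    ext v; simp only [mem_insert, mem_singleton]; tauto

theorem Ch.mono {g h : V → V → Prop} {P Q P' Q' X : Finset V} (H : Ch g h P Q X) (hP : P ⊆ P')
    (hQ : Q ⊆ Q') : Ch g h P' Q' X := by
  rcases H with ⟨y, hy, y', hy', z, hz, h1, h2, rfl⟩ | ⟨y, hy, z, hz, z', hz', h1, h2, rfl⟩
  · exact Or.inl ⟨y, hP hy, y', hP hy', z, hQ hz, h1, h2, rfl⟩
  · exact Or.inr ⟨y, hP hy, z, hQ hz, z', hQ hz', h1, h2, rfl⟩

theorem Ch.sub {g h : V → V → Prop} {P Q X : Finset V} (H : Ch g h P Q X) : X ⊆ P ∪ Q := by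
  rcases H with ⟨y, hy, y', hy', z, hz, h1, h2, rfl⟩ | ⟨y, hy, z, hz, z', hz', h1, h2, rfl⟩ <;>
  · intro v hv
    simp only [mem_insert, mem_singleton] at hv
    rcases hv with rfl | rfl | rfl <;> simp_all

theorem Mat.side {r : V → V → Prop} {P Q : Finset V} {M : Finset (V × V)} (H : Mat r P Q M) :
    Mat (fun a b => r b a) Q P (M.image Prod.swap) := by
  refine ⟨fun e he => ?_, fun e he f hf hef => ?_⟩
  · obtain ⟨e', he', rfl⟩ := mem_image.1 he
    obtain ⟨h1, h2, h3⟩ := H.1 e' he'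
    exact ⟨h2, h1, h3⟩
  · obtain ⟨e', he', rfl⟩ := mem_image.1 he
    obtain ⟨f', hf', rfl⟩ := mem_image.1 hf
    rw [H.2 e' he' f' hf' (by simpa [or_comm] using hef)]

theorem swap_card (M : Finset (V × V)) : (M.image Prod.swap).card = M.card :=
  card_image_of_injective _ Prod.swap_injective

theorem Res.colour {g h : V → V → Prop} {P Q X : Finset V} {q : ℕ} (H : Res g h P Q q X) :
    Res h g P Q q X := ⟨H.1.colour, H.2.2, H.2.1⟩

theorem Res.side {g h : V → V → Prop} {P Q X : Finset V} {q : ℕ}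
    (H : Res (fun a b => g b a) (fun a b => h b a) Q P q X) : Res g h P Q q X := by
  obtain ⟨h1, ⟨M, hM, cM⟩, ⟨N, hN, cN⟩⟩ := H
  exact ⟨h1.side, ⟨M.image Prod.swap, hM.side, by rw [swap_card]; exact cM⟩,
    ⟨N.image Prod.swap, hN.side, by rw [swap_card]; exact cN⟩⟩

theorem Mat.erase {r : V → V → Prop} {P Q X : Finset V} {M : Finset (V × V)} (H : Mat r P Q M)
    {e₀ : V × V} {q : ℕ} (he₀ : e₀ ∈ M) (hc : M.card = q + 1)
    (hX : ∀ e ∈ M, e ≠ e₀ → e.1 ∉ X ∧ e.2 ∉ X) :
    ∃ N, Mat r (P \ X) (Q \ X) N ∧ N.card = q := by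
  refine ⟨M.erase e₀, ⟨fun e he => ?_, fun e he f hf hef => ?_⟩, ?_⟩
  · rw [mem_erase] at he
    obtain ⟨h1, h2, h3⟩ := H.1 e he.2
    obtain ⟨h4, h5⟩ := hX e he.2 he.1
    exact ⟨mem_sdiff.2 ⟨h1, h4⟩, mem_sdiff.2 ⟨h2, h5⟩, h3⟩
  · exact H.2 e (mem_of_mem_erase he) f (mem_of_mem_erase hf) hef
  · rw [card_erase_of_mem he₀, hc]; rfl

theorem Mat.one {r : V → V → Prop} {P Q X : Finset V} {y z : V} (hy : y ∈ P) (hz : z ∈ Q)
    (hyX : y ∉ X) (hzX : z ∉ X) (hr : r y z) : ∃ N, Mat r (P \ X) (Q \ X) N ∧ N.card = 1 := by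
  refine ⟨{(y, z)}, ⟨fun e he => ?_, fun e he f hf _ => ?_⟩, card_singleton _⟩
  · rw [mem_singleton] at he
    subst he
    exact ⟨mem_sdiff.2 ⟨hy, hyX⟩, mem_sdiff.2 ⟨hz, hzX⟩, hr⟩
  · rw [mem_singleton] at he hf
    rw [he, hf]

/-- two disjoint cherries give `Res` for `q = 1` -/
theorem Res.two {g h : V → V → Prop} {P Q X X' : Finset V} (H : Ch g h P Q X) (H' : Ch g h P Q X')
    (hd : Disjoint X' X) : Res g h P Q 1 X := by
  refine ⟨H, ?_, ?_⟩
  · rcases H' with ⟨y, hy, y', hy', z, hz, h1, h2, rfl⟩ | ⟨y, hy, z, hz, z', hz', h1, h2, rfl⟩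
    · exact Mat.one hy hz (disjoint_left.1 hd (by simp)) (disjoint_left.1 hd (by simp)) h1
    · exact Mat.one hy hz (disjoint_left.1 hd (by simp)) (disjoint_left.1 hd (by simp)) h1
  · rcases H' with ⟨y, hy, y', hy', z, hz, h1, h2, rfl⟩ | ⟨y, hy, z, hz, z', hz', h1, h2, rfl⟩
    · exact Mat.one hy' hz (disjoint_left.1 hd (by simp)) (disjoint_left.1 hd (by simp)) h2
    · exact Mat.one hy hz' (disjoint_left.1 hd (by simp)) (disjoint_left.1 hd (by simp)) h2

section

variable {g h : V → V → Prop} {P Q : Finset V}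

/-- centre in `Q` -/
theorem res_q (hPQ : Disjoint P Q) {MG MH : Finset (V × V)} {q : ℕ} (hG : Mat g P Q MG)
    (hH : Mat h P Q MH) (cG : MG.card = q + 1) (cH : MH.card = q + 1) {y y' z : V}
    (h1 : (y, z) ∈ MG) (h2 : (y', z) ∈ MH) (hy : ∀ w, (y, w) ∉ MH) (hy' : ∀ w, (y', w) ∉ MG) :
    Res g h P Q q {y, y', z} := by
  obtain ⟨a1, a2, a3⟩ := hG.1 _ h1
  obtain ⟨b1, b2, b3⟩ := hH.1 _ h2
  simp only at a1 a2 a3 b1 b2 b3
  refine ⟨Or.inl ⟨y, a1, y', b1, z, a2, a3, b3, rfl⟩, hG.erase h1 cG fun e he hne => ?_,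
    hH.erase h2 cH fun e he hne => ?_⟩
  · obtain ⟨c1, c2, c3⟩ := hG.1 e he
    simp only [mem_insert, mem_singleton, not_or]
    refine ⟨⟨fun hh => hne (hG.2 e he _ h1 (Or.inl hh)), fun hh => hy' e.2 (by rw [← hh]; exact he),
      fun hh => disjoint_left.1 hPQ c1 (hh ▸ a2)⟩, fun hh => disjoint_left.1 hPQ a1 (hh ▸ c2),
      fun hh => disjoint_left.1 hPQ b1 (hh ▸ c2), fun hh => hne (hG.2 e he _ h1 (Or.inr hh))⟩
  · obtain ⟨c1, c2, c3⟩ := hH.1 e he
    simp only [mem_insert, mem_singleton, not_or]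
    refine ⟨⟨fun hh => hy e.2 (by rw [← hh]; exact he), fun hh => hne (hH.2 e he _ h2 (Or.inl hh)),
      fun hh => disjoint_left.1 hPQ c1 (hh ▸ a2)⟩, fun hh => disjoint_left.1 hPQ a1 (hh ▸ c2),
      fun hh => disjoint_left.1 hPQ b1 (hh ▸ c2), fun hh => hne (hH.2 e he _ h2 (Or.inr hh))⟩

/-- centre in `P` -/
theorem res_p (hPQ : Disjoint P Q) {MG MH : Finset (V × V)} {q : ℕ} (hG : Mat g P Q MG)
    (hH : Mat h P Q MH) (cG : MG.card = q + 1) (cH : MH.card = q + 1) {y z z' : V}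
    (h1 : (y, z) ∈ MG) (h2 : (y, z') ∈ MH) (hz : ∀ w, (w, z) ∉ MH) (hz' : ∀ w, (w, z') ∉ MG) :
    Res g h P Q q {y, z, z'} := by
  obtain ⟨a1, a2, a3⟩ := hG.1 _ h1
  obtain ⟨b1, b2, b3⟩ := hH.1 _ h2
  simp only at a1 a2 a3 b1 b2 b3
  refine ⟨Or.inr ⟨y, a1, z, a2, z', b2, a3, b3, rfl⟩, hG.erase h1 cG fun e he hne => ?_,
    hH.erase h2 cH fun e he hne => ?_⟩
  · obtain ⟨c1, c2, c3⟩ := hG.1 e he
    simp only [mem_insert, mem_singleton, not_or]
    refine ⟨⟨fun hh => hne (hG.2 e he _ h1 (Or.inl hh)), fun hh => disjoint_left.1 hPQ c1 (hh ▸ a2),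
      fun hh => disjoint_left.1 hPQ c1 (hh ▸ b2)⟩, fun hh => disjoint_left.1 hPQ a1 (hh ▸ c2),
      fun hh => hne (hG.2 e he _ h1 (Or.inr hh)), fun hh => hz' e.1 (by rw [← hh]; exact he)⟩
  · obtain ⟨c1, c2, c3⟩ := hH.1 e he
    simp only [mem_insert, mem_singleton, not_or]
    refine ⟨⟨fun hh => hne (hH.2 e he _ h2 (Or.inl hh)), fun hh => disjoint_left.1 hPQ c1 (hh ▸ a2),
      fun hh => disjoint_left.1 hPQ c1 (hh ▸ b2)⟩, fun hh => disjoint_left.1 hPQ a1 (hh ▸ c2),
      fun hh => hz e.1 (by rw [← hh]; exact he), fun hh => hne (hH.2 e he _ h2 (Or.inr hh))⟩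

/-- an isolated `g`-edge and an isolated `h`-edge -/
theorem res_iso (hPQ : Disjoint P Q) (htot : ∀ y ∈ P, ∀ z ∈ Q, g y z ∨ h y z)
    {MG MH : Finset (V × V)} {q : ℕ} (hG : Mat g P Q MG)
    (hH : Mat h P Q MH) (cG : MG.card = q + 1) (cH : MH.card = q + 1) {y z y' z' : V}
    (h1 : (y, z) ∈ MG) (h2 : (y', z') ∈ MH) (hy : ∀ w, (y, w) ∉ MH) (hz : ∀ w, (w, z) ∉ MH)
    (hy' : ∀ w, (y', w) ∉ MG) (hz' : ∀ w, (w, z') ∉ MG) : ∃ X, Res g h P Q q X := by
  obtain ⟨a1, a2, a3⟩ := hG.1 _ h1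
  obtain ⟨b1, b2, b3⟩ := hH.1 _ h2
  simp only at a1 a2 a3 b1 b2 b3
  rcases htot y a1 z' b2 with hc | hc
  · refine ⟨{y, y', z'}, Or.inl ⟨y, a1, y', b1, z', b2, hc, b3, rfl⟩, hG.erase h1 cG fun e he hne => ?_,
      hH.erase h2 cH fun e he hne => ?_⟩
    · obtain ⟨c1, c2, c3⟩ := hG.1 e he
      simp only [mem_insert, mem_singleton, not_or]
      exact ⟨⟨fun hh => hne (hG.2 e he _ h1 (Or.inl hh)), fun hh => hy' e.2 (by rw [← hh]; exact he),
        fun hh => disjoint_left.1 hPQ c1 (hh ▸ b2)⟩, fun hh => disjoint_left.1 hPQ a1 (hh ▸ c2),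
        fun hh => disjoint_left.1 hPQ b1 (hh ▸ c2), fun hh => hz' e.1 (by rw [← hh]; exact he)⟩
    · obtain ⟨c1, c2, c3⟩ := hH.1 e he
      simp only [mem_insert, mem_singleton, not_or]
      exact ⟨⟨fun hh => hy e.2 (by rw [← hh]; exact he), fun hh => hne (hH.2 e he _ h2 (Or.inl hh)),
        fun hh => disjoint_left.1 hPQ c1 (hh ▸ b2)⟩, fun hh => disjoint_left.1 hPQ a1 (hh ▸ c2),
        fun hh => disjoint_left.1 hPQ b1 (hh ▸ c2), fun hh => hne (hH.2 e he _ h2 (Or.inr hh))⟩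
  · refine ⟨{y, z, z'}, Or.inr ⟨y, a1, z, a2, z', b2, a3, hc, rfl⟩, hG.erase h1 cG fun e he hne => ?_,
      hH.erase h2 cH fun e he hne => ?_⟩
    · obtain ⟨c1, c2, c3⟩ := hG.1 e he
      simp only [mem_insert, mem_singleton, not_or]
      exact ⟨⟨fun hh => hne (hG.2 e he _ h1 (Or.inl hh)), fun hh => disjoint_left.1 hPQ c1 (hh ▸ a2),
        fun hh => disjoint_left.1 hPQ c1 (hh ▸ b2)⟩, fun hh => disjoint_left.1 hPQ a1 (hh ▸ c2),
        fun hh => hne (hG.2 e he _ h1 (Or.inr hh)), fun hh => hz' e.1 (by rw [← hh]; exact he)⟩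
    · obtain ⟨c1, c2, c3⟩ := hH.1 e he
      simp only [mem_insert, mem_singleton, not_or]
      exact ⟨⟨fun hh => hy e.2 (by rw [← hh]; exact he), fun hh => disjoint_left.1 hPQ c1 (hh ▸ a2),
        fun hh => disjoint_left.1 hPQ c1 (hh ▸ b2)⟩, fun hh => disjoint_left.1 hPQ a1 (hh ▸ c2),
        fun hh => hz e.1 (by rw [← hh]; exact he), fun hh => hne (hH.2 e he _ h2 (Or.inr hh))⟩

/-- `K_{3,3}` with the path `z₁ -h- y -g- z -h- y₁` and the `g`-edge `y₂ z₂` -/
theorem typeA (hPQ : Disjoint P Q) (htot : ∀ y ∈ P, ∀ z ∈ Q, g y z ∨ h y z) {y y₁ y₂ z z₁ z₂ : V}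
    (hy : y ∈ P) (hy₁ : y₁ ∈ P) (hy₂ : y₂ ∈ P) (hz : z ∈ Q) (hz₁ : z₁ ∈ Q) (hz₂ : z₂ ∈ Q)
    (e1 : y ≠ y₁) (e2 : y ≠ y₂) (e3 : y₁ ≠ y₂) (f1 : z ≠ z₁) (f2 : z ≠ z₂) (f3 : z₁ ≠ z₂)
    (a1 : h y z₁) (a2 : g y z) (a3 : h y₁ z) (a4 : g y₂ z₂) : ∃ X, Res g h P Q 1 X := by
  have n : ∀ a ∈ P, ∀ b ∈ Q, a ≠ b := fun a ha b hb hab => disjoint_left.1 hPQ ha (hab ▸ hb)
  rcases htot y₁ hy₁ z₂ hz₂ with b1 | b1
  · rcases htot y₂ hy₂ z₁ hz₁ with b2 | b2
    · -- {z, y₁, z₂}, {y, z₁, y₂}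
      refine ⟨_, Res.two (X := {y₁, z₂, z}) (X' := {y₂, y, z₁})
        (Or.inr ⟨y₁, hy₁, z₂, hz₂, z, hz, b1, a3, rfl⟩)
        (Or.inl ⟨y₂, hy₂, y, hy, z₁, hz₁, b2, a1, rfl⟩) ?_⟩
      rw [disjoint_left]
      intro v hv hv'
      simp only [mem_insert, mem_singleton] at hv hv'
      rcases hv with rfl | rfl | rfl <;> rcases hv' with h' | h' | h' <;>
        first | exact absurd h' (by assumption) | exact absurd h'.symm (by assumption) |
          exact absurd h' (n _ (by assumption) _ (by assumption)) |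
          exact absurd h'.symm (n _ (by assumption) _ (by assumption))
    · -- {y₁, z, y} centre z; {z₁, y₂, z₂} centre y₂
      refine ⟨_, Res.two (X := {y, y₁, z}) (X' := {y₂, z₂, z₁})
        (Or.inl ⟨y, hy, y₁, hy₁, z, hz, a2, a3, rfl⟩)
        (Or.inr ⟨y₂, hy₂, z₂, hz₂, z₁, hz₁, a4, b2, rfl⟩) ?_⟩
      rw [disjoint_left]
      intro v hv hv'
      simp only [mem_insert, mem_singleton] at hv hv'
      rcases hv with rfl | rfl | rfl <;> rcases hv' with h' | h' | h' <;>
        first | exact absurd h' (by assumption) | exact absurd h'.symm (by assumption) |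
          exact absurd h' (n _ (by assumption) _ (by assumption)) |
          exact absurd h'.symm (n _ (by assumption) _ (by assumption))
  · -- {z₁, y, z} centre y; {y₂, y₁, z₂} centre z₂
    refine ⟨_, Res.two (X := {y, z, z₁}) (X' := {y₂, y₁, z₂})
      (Or.inr ⟨y, hy, z, hz, z₁, hz₁, a2, a1, rfl⟩)
      (Or.inl ⟨y₂, hy₂, y₁, hy₁, z₂, hz₂, a4, b1, rfl⟩) ?_⟩
    rw [disjoint_left]
    intro v hv hv'
    simp only [mem_insert, mem_singleton] at hv hv'
    rcases hv with rfl | rfl | rfl <;> rcases hv' with h' | h' | h' <;>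
      first | exact absurd h' (by assumption) | exact absurd h'.symm (by assumption) |
        exact absurd h' (n _ (by assumption) _ (by assumption)) |
        exact absurd h'.symm (n _ (by assumption) _ (by assumption))

/-- the path `z₁ -h- y -g- z -h- y' -g- z₂` and one more vertex `y₀` -/
theorem typeB (hPQ : Disjoint P Q) (htot : ∀ y ∈ P, ∀ z ∈ Q, g y z ∨ h y z) {y y' y₀ z z₁ z₂ : V}
    (hy : y ∈ P) (hy' : y' ∈ P) (hy₀ : y₀ ∈ P) (hz : z ∈ Q) (hz₁ : z₁ ∈ Q) (hz₂ : z₂ ∈ Q)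
    (e1 : y ≠ y') (e2 : y ≠ y₀) (e3 : y' ≠ y₀) (f1 : z ≠ z₁) (f2 : z ≠ z₂) (f3 : z₁ ≠ z₂)
    (a1 : h y z₁) (a2 : g y z) (a3 : h y' z) (a4 : g y' z₂) : ∃ X, Res g h P Q 1 X := by
  have n : ∀ a ∈ P, ∀ b ∈ Q, a ≠ b := fun a ha b hb hab => disjoint_left.1 hPQ ha (hab ▸ hb)
  rcases htot y₀ hy₀ z₂ hz₂ with b1 | b1
  · rcases htot y₀ hy₀ z₁ hz₁ with b2 | b2
    · -- {z, y', z₂} centre y'; {y, y₀, z₁} centre z₁
      refine ⟨_, Res.two (X := {y', z₂, z}) (X' := {y₀, y, z₁})
        (Or.inr ⟨y', hy', z₂, hz₂, z, hz, a4, a3, rfl⟩)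
        (Or.inl ⟨y₀, hy₀, y, hy, z₁, hz₁, b2, a1, rfl⟩) ?_⟩
      rw [disjoint_left]
      intro v hv hv'
      simp only [mem_insert, mem_singleton] at hv hv'
      rcases hv with rfl | rfl | rfl <;> rcases hv' with h' | h' | h' <;>
        first | exact absurd h' (by assumption) | exact absurd h'.symm (by assumption) |
          exact absurd h' (n _ (by assumption) _ (by assumption)) |
          exact absurd h'.symm (n _ (by assumption) _ (by assumption))
    · -- {y, y', z} centre z; {y₀, z₂, z₁} centre y₀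
      refine ⟨_, Res.two (X := {y, y', z}) (X' := {y₀, z₂, z₁})
        (Or.inl ⟨y, hy, y', hy', z, hz, a2, a3, rfl⟩)
        (Or.inr ⟨y₀, hy₀, z₂, hz₂, z₁, hz₁, b1, b2, rfl⟩) ?_⟩
      rw [disjoint_left]
      intro v hv hv'
      simp only [mem_insert, mem_singleton] at hv hv'
      rcases hv with rfl | rfl | rfl <;> rcases hv' with h' | h' | h' <;>
        first | exact absurd h' (by assumption) | exact absurd h'.symm (by assumption) |
          exact absurd h' (n _ (by assumption) _ (by assumption)) |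
          exact absurd h'.symm (n _ (by assumption) _ (by assumption))
  · -- {z₁, y, z} centre y; {y', y₀, z₂} centre z₂
    refine ⟨_, Res.two (X := {y, z, z₁}) (X' := {y', y₀, z₂})
      (Or.inr ⟨y, hy, z, hz, z₁, hz₁, a2, a1, rfl⟩)
      (Or.inl ⟨y', hy', y₀, hy₀, z₂, hz₂, a4, b1, rfl⟩) ?_⟩
    rw [disjoint_left]
    intro v hv hv'
    simp only [mem_insert, mem_singleton] at hv hv'
    rcases hv with rfl | rfl | rfl <;> rcases hv' with h' | h' | h' <;>
      first | exact absurd h' (by assumption) | exact absurd h'.symm (by assumption) |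
        exact absurd h' (n _ (by assumption) _ (by assumption)) |
        exact absurd h'.symm (n _ (by assumption) _ (by assumption))

/-- at most one vertex of `Q` is covered by both matchings -/
theorem cstep1 (hPQ : Disjoint P Q) (htot : ∀ y ∈ P, ∀ z ∈ Q, g y z ∨ h y z)
    (hex : ∀ y z, g y z → ¬ h y z) {MG MH : Finset (V × V)} {q : ℕ} (hP : 2 * q + 1 ≤ P.card)
    (hG : Mat g P Q MG) (hH : Mat h P Q MH) (cG : MG.card = q + 1) (cH : MH.card = q + 1)
    (hQ1 : ∀ a b z a' b' z', (a, z) ∈ MG → (b, z) ∈ MH → (a', z') ∈ MG → (b', z') ∈ MH → z = z') :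
    ∃ X, Res g h P Q q X := by
  by_cases hov : ∃ a b z, (a, z) ∈ MG ∧ (b, z) ∈ MH
  · obtain ⟨a, b, z, ha, hb⟩ := hov
    obtain ⟨ga1, ga2, ga3⟩ := hG.1 _ ha
    obtain ⟨hb1, hb2, hb3⟩ := hH.1 _ hb
    simp only at ga1 ga2 ga3 hb1 hb2 hb3
    have hab : a ≠ b := by
      rintro rfl
      exact hex _ _ ga3 hb3
    by_cases h1 : ∃ y w w', (y, w) ∈ MG ∧ (y, w') ∈ MH ∧ w ≠ z ∧ w' ≠ z
    · obtain ⟨y, w, w', e1, e2, e3, e4⟩ := h1
      refine ⟨_, res_p hPQ hG hH cG cH e1 e2 (fun x hx => e3 ?_) (fun x hx => e4 ?_)⟩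
      · exact (hQ1 _ _ _ _ _ _ e1 hx ha hb)
      · exact (hQ1 _ _ _ _ _ _ hx e2 ha hb)
    push Not at h1
    -- an edge of `MG` other than `(a, z)` with first vertex `≠ b` is isolated
    have isoG : ∀ e ∈ MG, e ≠ (a, z) → e.2 ≠ z ∧ (∀ w, (w, e.2) ∉ MH) ∧
        (e.1 ≠ b → ∀ w, (e.1, w) ∉ MH) := by
      intro e he hne
      have h2 : e.2 ≠ z := fun hh => hne (hG.2 e he _ ha (Or.inr hh))
      refine ⟨h2, fun w hw => h2 (hQ1 e.1 _ e.2 _ _ _ he hw ha hb), fun h3 w hw => ?_⟩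
      have h4 : w = z := h1 e.1 e.2 w he hw h2
      subst h4
      exact h3 (congrArg Prod.fst (hH.2 _ hw _ hb (Or.inr rfl)))
    have isoH : ∀ f ∈ MH, f ≠ (b, z) → f.2 ≠ z ∧ (∀ w, (w, f.2) ∉ MG) ∧
        (f.1 ≠ a → ∀ w, (f.1, w) ∉ MG) := by
      intro f hf hne
      have h2 : f.2 ≠ z := fun hh => hne (hH.2 f hf _ hb (Or.inr hh))
      refine ⟨h2, fun w hw => h2 (hQ1 _ f.1 f.2 _ _ _ hw hf ha hb), fun h3 w hw => ?_⟩
      have h4 : w = z := by
        by_contra h5
        exact h2 (h1 f.1 w f.2 hw hf h5)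
      subst h4
      exact h3 (congrArg Prod.fst (hG.2 _ hw _ ha (Or.inr rfl)))
    by_cases hG2 : ∃ e ∈ MG, e ≠ (a, z) ∧ e.1 ≠ b
    · by_cases hH2 : ∃ f ∈ MH, f ≠ (b, z) ∧ f.1 ≠ a
      · obtain ⟨e, he, he1, he2⟩ := hG2
        obtain ⟨f, hf, hf1, hf2⟩ := hH2
        obtain ⟨i1, i2, i3⟩ := isoG e he he1
        obtain ⟨j1, j2, j3⟩ := isoH f hf hf1
        exact res_iso hPQ htot hG hH cG cH (y := e.1) (z := e.2) (y' := f.1) (z' := f.2) he hf
          (i3 he2) i2 (j3 hf2) j2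
      · -- `MH ⊆ {(b, z), (a, ·)}`
        have hc : (MH.erase (b, z)).card ≤ 1 := by
          rw [card_le_one]
          intro e he f hf
          rw [mem_erase] at he hf
          have he3 : e.1 = a := by
            by_contra hh
            exact hH2 ⟨e, he.2, he.1, hh⟩
          have hf3 : f.1 = a := by
            by_contra hh
            exact hH2 ⟨f, hf.2, hf.1, hh⟩
          exact hH.2 e he.2 f hf.2 (Or.inl (he3.trans hf3.symm))
        rw [card_erase_of_mem hb, cH] at hc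
        have hq : q ≤ 1 := by omega
        obtain ⟨e, he, he1, he2⟩ := hG2
        obtain ⟨i1, i2, i3⟩ := isoG e he he1
        by_cases ha' : ∃ w, (a, w) ∈ MH
        · obtain ⟨z₁, hz₁⟩ := ha'
          have hzz : z₁ ≠ z := by
            rintro rfl
            exact hex _ _ ga3 (hH.1 _ hz₁).2.2
          have hq1 : q = 1 := by
            by_contra hh
            have h0 : MH.card ≤ 1 := by omega
            rw [card_le_one] at h0
            exact hab (congrArg Prod.fst (h0 _ hz₁ _ hb))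
          subst hq1
          obtain ⟨hz1P, hz1Q, hz1h⟩ := hH.1 _ hz₁
          obtain ⟨heP, heQ, heg⟩ := hG.1 _ he
          simp only at hz1P hz1Q hz1h
          have hea : a ≠ e.1 := fun hh => he1 (hG.2 e he _ ha (Or.inl hh.symm))
          exact typeA hPQ htot ga1 hb1 heP ga2 hz1Q heQ hab hea he2.symm hzz.symm i1.symm
            (fun hh => i2 a (hh ▸ hz₁)) hz1h ga3 hb3 heg
        · push Not at ha'
          by_cases hb' : ∃ w, (b, w) ∈ MG
          · obtain ⟨z₂, hz₂⟩ := hb'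
            have hzz : z₂ ≠ z := by
              rintro rfl
              exact hex _ _ (hG.1 _ hz₂).2.2 hb3
            -- then `MG` has three edges
            exfalso
            have h3 : ({(a, z), (b, z₂), e} : Finset (V × V)) ⊆ MG := by
              intro x hx
              simp only [mem_insert, mem_singleton] at hx
              rcases hx with rfl | rfl | rfl <;> assumption
            have h4 : ({(a, z), (b, z₂), e} : Finset (V × V)).card = 3 := by
              rw [card_eq_three]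
              refine ⟨(a, z), (b, z₂), e, ?_, he1.symm, ?_, rfl⟩
              · intro hh
                exact hab (congrArg Prod.fst hh)
              · intro hh
                exact he2 (congrArg Prod.fst hh).symm
            have := card_le_card h3
            omega
          · push Not at hb'
            exact ⟨_, res_q hPQ hG hH cG cH ha hb ha' hb'⟩
    · -- `MG ⊆ {(a, z), (b, ·)}`
      have hc : (MG.erase (a, z)).card ≤ 1 := by
        rw [card_le_one]
        intro e he f hf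
        rw [mem_erase] at he hf
        have he3 : e.1 = b := by
          by_contra hh
          exact hG2 ⟨e, he.2, he.1, hh⟩
        have hf3 : f.1 = b := by
          by_contra hh
          exact hG2 ⟨f, hf.2, hf.1, hh⟩
        exact hG.2 e he.2 f hf.2 (Or.inl (he3.trans hf3.symm))
      rw [card_erase_of_mem ha, cG] at hc
      have hq : q ≤ 1 := by omega
      by_cases hb' : ∃ w, (b, w) ∈ MG
      · obtain ⟨z₂, hz₂⟩ := hb'
        have hzz : z₂ ≠ z := by
          rintro rfl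
          exact hex _ _ (hG.1 _ hz₂).2.2 hb3
        have hq1 : q = 1 := by
          by_contra hh
          have h0 : MG.card ≤ 1 := by omega
          rw [card_le_one] at h0
          exact hab (congrArg Prod.fst (h0 _ ha _ hz₂))
        subst hq1
        obtain ⟨hz2P, hz2Q, hz2g⟩ := hG.1 _ hz₂
        simp only at hz2P hz2Q hz2g
        by_cases ha' : ∃ w, (a, w) ∈ MH
        · obtain ⟨z₁, hz₁⟩ := ha'
          have hzz1 : z₁ ≠ z := by
            rintro rfl
            exact hex _ _ ga3 (hH.1 _ hz₁).2.2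
          obtain ⟨hz1P, hz1Q, hz1h⟩ := hH.1 _ hz₁
          simp only at hz1P hz1Q hz1h
          have h12 : z₁ ≠ z₂ := fun hh => hzz1 (hQ1 _ _ _ _ _ _ (hh ▸ hz₂) hz₁ ha hb)
          obtain ⟨y₀, hy₀⟩ : ∃ y₀, y₀ ∈ P \ {a, b} := by
            rw [← Finset.Nonempty, ← card_pos]
            have := le_card_sdiff ({a, b} : Finset V) P
            have h5 : ({a, b} : Finset V).card ≤ 2 := card_le_two
            omega
          rw [mem_sdiff, mem_insert, mem_singleton, not_or] at hy₀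
          exact typeB hPQ htot ga1 hb1 hy₀.1 ga2 hz1Q hz2Q hab (Ne.symm hy₀.2.1) (Ne.symm hy₀.2.2)
            hzz1.symm hzz.symm h12 hz1h ga3 hb3 hz2g
        · push Not at ha'
          -- another edge of `MH`
          obtain ⟨f, hf, hfne⟩ : ∃ f ∈ MH, f ≠ (b, z) := by
            by_contra hh
            push Not at hh
            have h0 : MH.card ≤ 1 := by
              rw [card_le_one]
              intro e he f hf
              rw [hh e he, hh f hf]
            omega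
          obtain ⟨j1, j2, j3⟩ := isoH f hf hfne
          obtain ⟨hfP, hfQ, hfh⟩ := hH.1 _ hf
          have hfa : a ≠ f.1 := fun hh => ha' f.2 (by rw [hh]; exact hf)
          have hfb : b ≠ f.1 := fun hh => hfne (hH.2 f hf _ hb (Or.inl hh.symm))
          obtain ⟨X, hX⟩ := typeA (g := h) (h := g) (y := b) (y₁ := a) (y₂ := f.1) (z := z)
            (z₁ := z₂) (z₂ := f.2) hPQ (fun y hy z hz => (htot y hy z hz).symm) hb1 ga1 hfP ga2 hz2Q hfQ
            hab.symm hfb hfa hzz.symm j1.symm (fun hh => j2 b (hh ▸ hz₂)) hz2g hb3 ga3 hfh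
          exact ⟨X, hX.colour⟩
      · push Not at hb'
        by_cases ha' : ∃ w, (a, w) ∈ MH
        · obtain ⟨z₁, hz₁⟩ := ha'
          exfalso
          -- `MH` has two edges but `MG` only one
          have h0 : MG.card ≤ 1 := by
            rw [card_le_one]
            have key : ∀ e ∈ MG, e = (a, z) := by
              intro e he
              by_contra hh
              have : e.1 = b := by
                by_contra h5
                exact hG2 ⟨e, he, hh, h5⟩
              exact hb' e.2 (by rw [← this]; exact he)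
            intro e he f hf
            rw [key e he, key f hf]
          have h6 : MH.card ≤ 1 := by omega
          rw [card_le_one] at h6
          exact hab (congrArg Prod.fst (h6 _ hz₁ _ hb))
        · push Not at ha'
          exact ⟨_, res_q hPQ hG hH cG cH ha hb ha' hb'⟩
  · push Not at hov
    by_cases h1 : ∃ y w w', (y, w) ∈ MG ∧ (y, w') ∈ MH
    · obtain ⟨y, w, w', e1, e2⟩ := h1
      exact ⟨_, res_p hPQ hG hH cG cH e1 e2 (fun x hx => hov _ _ _ e1 hx)
        (fun x hx => hov _ _ _ hx e2)⟩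
    · push Not at h1
      obtain ⟨e, he⟩ : MG.Nonempty := card_pos.1 (by omega)
      obtain ⟨f, hf⟩ : MH.Nonempty := card_pos.1 (by omega)
      exact res_iso hPQ htot hG hH cG cH (y := e.1) (z := e.2) (y' := f.1) (z' := f.2) he hf
        (fun w => h1 e.1 e.2 w he) (fun w hw => hov _ _ _ he hw) (fun w hw => h1 f.1 w f.2 hw hf)
        (fun w hw => hov _ _ _ hw hf)

/-- overlap of two matchings -/
def mu (M N : Finset (V × V)) : ℕ :=
  (M.image Prod.fst ∩ N.image Prod.fst).card + (M.image Prod.snd ∩ N.image Prod.snd).card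

theorem mu_comm (M N : Finset (V × V)) : mu M N = mu N M := by
  unfold mu
  rw [inter_comm, inter_comm (M.image Prod.snd)]

theorem swap_lt {r : V → V → Prop} {M N : Finset (V × V)} (hM : Mat r P Q M) {e : V × V}
    (he : e ∈ M) (hov : e.1 ∈ N.image Prod.fst ∨ e.2 ∈ N.image Prod.snd) {y₀ z₀ : V}
    (hy₀ : y₀ ∈ P) (hz₀ : z₀ ∈ Q) (h1 : y₀ ∉ M.image Prod.fst) (h2 : y₀ ∉ N.image Prod.fst)
    (h3 : z₀ ∉ M.image Prod.snd) (h4 : z₀ ∉ N.image Prod.snd) (hr : r y₀ z₀) :
    ∃ M', Mat r P Q M' ∧ M'.card = M.card ∧ mu M' N < mu M N := by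
  have hn : (y₀, z₀) ∉ M.erase e := by
    intro hh
    exact h1 (mem_image.2 ⟨_, mem_of_mem_erase hh, rfl⟩)
  refine ⟨insert (y₀, z₀) (M.erase e), ⟨fun f hf => ?_, fun f hf f' hf' hff => ?_⟩, ?_, ?_⟩
  · rcases mem_insert.1 hf with rfl | hf
    · exact ⟨hy₀, hz₀, hr⟩
    · exact hM.1 f (mem_of_mem_erase hf)
  · have key : ∀ f' ∈ M, ((y₀, z₀) : V × V).1 = f'.1 ∨ ((y₀, z₀) : V × V).2 = f'.2 → False := by
      rintro f' hf' (h5 | h5)
      · exact h1 (mem_image.2 ⟨f', hf', h5.symm⟩)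
      · exact h3 (mem_image.2 ⟨f', hf', h5.symm⟩)
    rcases mem_insert.1 hf with rfl | hf
    · rcases mem_insert.1 hf' with rfl | hf'
      · rfl
      · exact (key f' (mem_of_mem_erase hf') hff).elim
    · rcases mem_insert.1 hf' with rfl | hf'
      · exact (key f (mem_of_mem_erase hf) (hff.imp Eq.symm Eq.symm)).elim
      · exact hM.2 f (mem_of_mem_erase hf) f' (mem_of_mem_erase hf') hff
  · rw [card_insert_of_notMem hn, card_erase_of_mem he]
    have := card_pos.2 ⟨e, he⟩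
    omega
  · have s1 : (insert (y₀, z₀) (M.erase e)).image Prod.fst ∩ N.image Prod.fst ⊆
        (M.image Prod.fst ∩ N.image Prod.fst).erase e.1 := by
      intro v hv
      rw [mem_inter, image_insert, mem_insert] at hv
      obtain ⟨hv1 | hv1, hv2⟩ := hv
      · exact absurd (show y₀ ∈ N.image Prod.fst by rw [hv1] at hv2; exact hv2) h2
      · obtain ⟨f, hf, rfl⟩ := mem_image.1 hv1
        rw [mem_erase] at hf
        rw [mem_erase, mem_inter]
        exact ⟨fun hh => hf.1 (hM.2 f hf.2 e he (Or.inl hh)), mem_image.2 ⟨f, hf.2, rfl⟩, hv2⟩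
    have s2 : (insert (y₀, z₀) (M.erase e)).image Prod.snd ∩ N.image Prod.snd ⊆
        (M.image Prod.snd ∩ N.image Prod.snd).erase e.2 := by
      intro v hv
      rw [mem_inter, image_insert, mem_insert] at hv
      obtain ⟨hv1 | hv1, hv2⟩ := hv
      · exact absurd (show z₀ ∈ N.image Prod.snd by rw [hv1] at hv2; exact hv2) h4
      · obtain ⟨f, hf, rfl⟩ := mem_image.1 hv1
        rw [mem_erase] at hf
        rw [mem_erase, mem_inter]
        exact ⟨fun hh => hf.1 (hM.2 f hf.2 e he (Or.inr hh)), mem_image.2 ⟨f, hf.2, rfl⟩, hv2⟩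
    have c1 := card_le_card s1
    have c2 := card_le_card s2
    have c3 := card_le_card (erase_subset e.1 (M.image Prod.fst ∩ N.image Prod.fst))
    have c4 := card_le_card (erase_subset e.2 (M.image Prod.snd ∩ N.image Prod.snd))
    unfold mu
    rcases hov with hov | hov
    · have h5 : e.1 ∈ M.image Prod.fst ∩ N.image Prod.fst :=
        mem_inter.2 ⟨mem_image.2 ⟨e, he, rfl⟩, hov⟩
      have := card_erase_of_mem h5
      have := card_pos.2 ⟨_, h5⟩
      omega
    · have h5 : e.2 ∈ M.image Prod.snd ∩ N.image Prod.snd :=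
        mem_inter.2 ⟨mem_image.2 ⟨e, he, rfl⟩, hov⟩
      have := card_erase_of_mem h5
      have := card_pos.2 ⟨_, h5⟩
      omega

theorem card_snd {r : V → V → Prop} {M : Finset (V × V)} (hM : Mat r P Q M) :
    (M.image Prod.snd).card = M.card :=
  card_image_of_injOn fun e he f hf hef => hM.2 e he f hf (Or.inr hef)

/-- all of `Q` is covered: at most one vertex of `Q` is covered twice -/
theorem one_of_cover {MG MH : Finset (V × V)} {q : ℕ} (hQ : 2 * q + 1 ≤ Q.card)
    (hG : Mat g P Q MG) (hH : Mat h P Q MH) (cG : MG.card = q + 1) (cH : MH.card = q + 1)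
    (hc : ∀ z ∈ Q, z ∈ MG.image Prod.snd ∨ z ∈ MH.image Prod.snd) :
    ∀ a b z a' b' z', (a, z) ∈ MG → (b, z) ∈ MH → (a', z') ∈ MG → (b', z') ∈ MH → z = z' := by
  have h1 : Q ⊆ MG.image Prod.snd ∪ MH.image Prod.snd := fun z hz => mem_union.2 (hc z hz)
  have h2 := card_le_card h1
  have h3 := card_union_add_card_inter (MG.image Prod.snd) (MH.image Prod.snd)
  rw [card_snd hG, card_snd hH, cG, cH] at h3
  have h4 : (MG.image Prod.snd ∩ MH.image Prod.snd).card ≤ 1 := by omega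
  rw [card_le_one] at h4
  intro a b z a' b' z' e1 e2 e3 e4
  exact h4 z (mem_inter.2 ⟨mem_image.2 ⟨_, e1, rfl⟩, mem_image.2 ⟨_, e2, rfl⟩⟩) z'
    (mem_inter.2 ⟨mem_image.2 ⟨_, e3, rfl⟩, mem_image.2 ⟨_, e4, rfl⟩⟩)

theorem cstep (hPQ : Disjoint P Q) (htot : ∀ y ∈ P, ∀ z ∈ Q, g y z ∨ h y z)
    (hex : ∀ y z, g y z → ¬ h y z) {q : ℕ} (hP : 2 * q + 1 ≤ P.card) (hQ : 2 * q + 1 ≤ Q.card) :
    ∀ (n : ℕ) (MG MH : Finset (V × V)), Mat g P Q MG → Mat h P Q MH → MG.card = q + 1 →
      MH.card = q + 1 → mu MG MH ≤ n → ∃ X, Res g h P Q q X := by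
  intro n
  induction n with
  | zero =>
    intro MG MH hG hH cG cH hmu
    refine cstep1 hPQ htot hex hP hG hH cG cH fun a b z a' b' z' e1 e2 e3 e4 => ?_
    exfalso
    have : z ∈ MG.image Prod.snd ∩ MH.image Prod.snd :=
      mem_inter.2 ⟨mem_image.2 ⟨_, e1, rfl⟩, mem_image.2 ⟨_, e2, rfl⟩⟩
    have := card_pos.2 ⟨_, this⟩
    unfold mu at hmu
    omega
  | succ n ih =>
    intro MG MH hG hH cG cH hmu
    by_cases hQc : ∀ z ∈ Q, z ∈ MG.image Prod.snd ∨ z ∈ MH.image Prod.snd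
    · exact cstep1 hPQ htot hex hP hG hH cG cH (one_of_cover hQ hG hH cG cH hQc)
    push Not at hQc
    obtain ⟨z₀, hz₀, hz1, hz2⟩ := hQc
    by_cases hPc : ∀ y ∈ P, y ∈ MG.image Prod.fst ∨ y ∈ MH.image Prod.fst
    · obtain ⟨X, hX⟩ := cstep1 (g := fun a b => g b a) (h := fun a b => h b a) (P := Q) (Q := P)
        hPQ.symm (fun y hy z hz => htot z hz y hy) (fun y z => hex z y) hQ hG.side hH.side
        ((swap_card _).trans cG) ((swap_card _).trans cH)
        (one_of_cover hP hG.side hH.side ((swap_card _).trans cG) ((swap_card _).trans cH)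
          (fun y hy => by
            rcases hPc y hy with h1 | h1
            · left
              rw [image_image]
              exact h1
            · right
              rw [image_image]
              exact h1))
      exact ⟨X, hX.side⟩
    push Not at hPc
    obtain ⟨y₀, hy₀, hy1, hy2⟩ := hPc
    by_cases hov : ∃ e ∈ MG, e.1 ∈ MH.image Prod.fst ∨ e.2 ∈ MH.image Prod.snd
    · obtain ⟨e, he, hov⟩ := hov
      rcases htot y₀ hy₀ z₀ hz₀ with hr | hr
      · obtain ⟨M', hM', cM', hlt⟩ := swap_lt hG he hov hy₀ hz₀ hy1 hy2 hz1 hz2 hr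
        exact ih M' MH hM' hH (cM'.trans cG) cH (by omega)
      · obtain ⟨f, hf, hov'⟩ : ∃ f ∈ MH, f.1 ∈ MG.image Prod.fst ∨ f.2 ∈ MG.image Prod.snd := by
          rcases hov with h1 | h1
          · obtain ⟨f, hf, h2⟩ := mem_image.1 h1
            exact ⟨f, hf, Or.inl (mem_image.2 ⟨e, he, h2.symm⟩)⟩
          · obtain ⟨f, hf, h2⟩ := mem_image.1 h1
            exact ⟨f, hf, Or.inr (mem_image.2 ⟨e, he, h2.symm⟩)⟩
        obtain ⟨M', hM', cM', hlt⟩ := swap_lt hH hf hov' hy₀ hz₀ hy2 hy1 hz2 hz1 hr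
        rw [mu_comm M' MG, mu_comm MH MG] at hlt
        exact ih MG M' hG hM' cG (cM'.trans cH) (by omega)
    · push Not at hov
      refine cstep1 hPQ htot hex hP hG hH cG cH fun a b z a' b' z' e1 e2 e3 e4 => ?_
      exact absurd (mem_image.2 ⟨_, e2, rfl⟩) (hov _ e1).2

end

/-- **Packing alternating cherries.** -/
theorem cherries {g h : V → V → Prop} (hex : ∀ y z, g y z → ¬ h y z) (q : ℕ) :
    ∀ P Q : Finset V, Disjoint P Q → (∀ y ∈ P, ∀ z ∈ Q, g y z ∨ h y z) → 2 * q ≤ P.card + 1 →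
      2 * q ≤ Q.card + 1 → (∃ M, Mat g P Q M ∧ M.card = q) → (∃ M, Mat h P Q M ∧ M.card = q) →
      ∃ C : Fin q → Finset V, (∀ i, Ch g h P Q (C i)) ∧ ∀ i j, i ≠ j → Disjoint (C i) (C j) := by
  induction q with
  | zero => exact fun P Q _ _ _ _ _ _ => ⟨fun i => i.elim0, fun i => i.elim0, fun i => i.elim0⟩
  | succ q ih =>
    intro P Q hPQ htot hP hQ ⟨MG, hG, cG⟩ ⟨MH, hH, cH⟩
    obtain ⟨X, hX, hXG, hXH⟩ := cstep hPQ htot hex (q := q) (by omega) (by omega) _ MG MH hG hH cG cH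
      le_rfl
    have hc : 2 * q ≤ (P \ X).card + 1 ∧ 2 * q ≤ (Q \ X).card + 1 := by
      rcases hX with ⟨y, hy, y', hy', z, hz, h1, h2, rfl⟩ | ⟨y, hy, z, hz, z', hz', h1, h2, rfl⟩
      · have e1 : P \ {y, y'} ⊆ P \ {y, y', z} := by
          intro v hv
          rw [mem_sdiff] at hv ⊢
          refine ⟨hv.1, fun hh => hv.2 ?_⟩
          simp only [mem_insert, mem_singleton] at hh ⊢
          rcases hh with h3 | h3 | h3
          · exact Or.inl h3
          · exact Or.inr h3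
          · exact absurd hz (disjoint_left.1 hPQ (h3 ▸ hv.1))
        have e2 : Q \ {z} ⊆ Q \ {y, y', z} := by
          intro v hv
          rw [mem_sdiff] at hv ⊢
          refine ⟨hv.1, fun hh => hv.2 ?_⟩
          simp only [mem_insert, mem_singleton] at hh ⊢
          rcases hh with h3 | h3 | h3
          · exact absurd hv.1 (disjoint_left.1 hPQ (h3 ▸ hy))
          · exact absurd hv.1 (disjoint_left.1 hPQ (h3 ▸ hy'))
          · exact h3
        have c1 := card_le_card e1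
        have c2 := card_le_card e2
        have c3 := le_card_sdiff ({y, y'} : Finset V) P
        have c4 := le_card_sdiff ({z} : Finset V) Q
        have c5 : ({y, y'} : Finset V).card ≤ 2 := card_le_two
        rw [card_singleton] at c4
        omega
      · have e1 : P \ {y} ⊆ P \ {y, z, z'} := by
          intro v hv
          rw [mem_sdiff] at hv ⊢
          refine ⟨hv.1, fun hh => hv.2 ?_⟩
          simp only [mem_insert, mem_singleton] at hh ⊢
          rcases hh with h3 | h3 | h3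
          · exact h3
          · exact absurd hz (disjoint_left.1 hPQ (h3 ▸ hv.1))
          · exact absurd hz' (disjoint_left.1 hPQ (h3 ▸ hv.1))
        have e2 : Q \ {z, z'} ⊆ Q \ {y, z, z'} := by
          intro v hv
          rw [mem_sdiff] at hv ⊢
          refine ⟨hv.1, fun hh => hv.2 ?_⟩
          simp only [mem_insert, mem_singleton] at hh ⊢
          rcases hh with h3 | h3 | h3
          · exact absurd hv.1 (disjoint_left.1 hPQ (h3 ▸ hy))
          · exact Or.inl h3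
          · exact Or.inr h3
        have c1 := card_le_card e1
        have c2 := card_le_card e2
        have c3 := le_card_sdiff ({z, z'} : Finset V) Q
        have c4 := le_card_sdiff ({y} : Finset V) P
        have c5 : ({z, z'} : Finset V).card ≤ 2 := card_le_two
        rw [card_singleton] at c4
        omega
    obtain ⟨C, hC, hCd⟩ := ih (P \ X) (Q \ X)
      (disjoint_of_subset_left sdiff_subset (disjoint_of_subset_right sdiff_subset hPQ))
      (fun y hy z hz => htot y (mem_sdiff.1 hy).1 z (mem_sdiff.1 hz).1) hc.1 hc.2 hXG hXH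
    have hdX : ∀ i, Disjoint X (C i) := by
      intro i
      rw [disjoint_left]
      intro v hv hv'
      have := (hC i).sub hv'
      rw [mem_union, mem_sdiff, mem_sdiff] at this
      rcases this with h1 | h1
      · exact h1.2 hv
      · exact h1.2 hv
    refine ⟨Fin.cons X C, fun i => ?_, fun i j hij => ?_⟩
    · refine Fin.cases ?_ (fun i => ?_) i
      · simpa using hX
      · simpa using (hC i).mono sdiff_subset sdiff_subset
    · revert hij
      refine Fin.cases ?_ (fun i => ?_) i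
      · refine Fin.cases (fun h0 => absurd rfl h0) (fun j _ => ?_) j
        simpa using hdX j
      · refine Fin.cases (fun _ => ?_) (fun j hij => ?_) j
        · simpa using (hdX i).symm
        · simpa using hCd i j (fun hh => hij (by rw [hh]))

end Pool.Agent.T3F
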