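import Mathlib
import Pool.Agent.T3.SM
import Pool.Agent.T3F.Cherry

/-!
# Full Hadwiger for three cliques, independence number two

The vertices of a largest of the three cliques, and disjoint cherries in the other two.
-/

set_option autoImplicit false

namespace Pool.Agent.T3F

open Finset Pool.Agent.CA31 Pool.Agent.CA72 Pool.Agent.CA31C Pool.Agent.T3

/-- deficiency version of Hall's theorem -/
theorem exists_mat {V : Type*} [DecidableEq V] (r : V → V → Prop) (P Q : Finset V) (m q : ℕ)
    (h : ∀ S ⊆ P, ∀ T ⊆ Q, (∀ s ∈ S, ∀ t ∈ T, ¬ r s t) → S.card + T.card ≤ m)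
    (hq : m + q ≤ P.card + Q.card) : ∃ M : Finset (V × V), Mat r P Q M ∧ M.card = q := by
  classical
  have hQm : Q.card ≤ m := by
    have := h ∅ (empty_subset _) Q (Subset.refl _) (by simp)
    simpa using this
  let t : {v // v ∈ P} → Finset (V ⊕ Fin (m - Q.card)) := fun i =>
    (Q.filter (fun z => r i.1 z)).map ⟨Sum.inl, Sum.inl_injective⟩ ∪
      (univ : Finset (Fin (m - Q.card))).map ⟨Sum.inr, Sum.inr_injective⟩
  have hall : ∀ s : Finset {v // v ∈ P}, s.card ≤ (s.biUnion t).card := by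
    intro s
    rcases s.eq_empty_or_nonempty with rfl | hs
    · simp
    have h1 : (s.biUnion (fun i => Q.filter (fun z => r i.1 z))).map ⟨Sum.inl, Sum.inl_injective⟩ ∪
        (univ : Finset (Fin (m - Q.card))).map ⟨Sum.inr, Sum.inr_injective⟩ ⊆ s.biUnion t := by
      intro x hx
      rw [mem_union, mem_map, mem_map] at hx
      rw [mem_biUnion]
      rcases hx with ⟨v, hv, rfl⟩ | ⟨v, hv, rfl⟩
      · obtain ⟨i, hi, hv⟩ := mem_biUnion.1 hv
        exact ⟨i, hi, mem_union_left _ (mem_map_of_mem _ hv)⟩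
      · obtain ⟨i, hi⟩ := hs
        exact ⟨i, hi, mem_union_right _ (mem_map_of_mem _ hv)⟩
    have h2 := card_le_card h1
    rw [card_union_of_disjoint, card_map, card_map, card_univ, Fintype.card_fin] at h2
    · have h3 := h (s.map ⟨Subtype.val, Subtype.val_injective⟩)
        (by intro v hv; obtain ⟨i, -, rfl⟩ := mem_map.1 hv; exact i.2)
        (Q \ s.biUnion (fun i => Q.filter (fun z => r i.1 z))) sdiff_subset (by
          intro v hv z hz hr
          obtain ⟨i, hi, rfl⟩ := mem_map.1 hv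
          rw [mem_sdiff] at hz
          exact hz.2 (mem_biUnion.2 ⟨i, hi, mem_filter.2 ⟨hz.1, hr⟩⟩))
      rw [card_map] at h3
      have h4 : s.biUnion (fun i => Q.filter (fun z => r i.1 z)) ⊆ Q := by
        intro v hv
        obtain ⟨i, hi, hv⟩ := mem_biUnion.1 hv
        exact (mem_filter.1 hv).1
      have h5 := card_sdiff_add_card_eq_card h4
      omega
    · rw [disjoint_left]
      intro x hx hx'
      obtain ⟨v, -, rfl⟩ := mem_map.1 hx
      obtain ⟨w, -, hw⟩ := mem_map.1 hx'
      simp at hw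
  obtain ⟨f, hf, hft⟩ := (all_card_le_biUnion_card_iff_exists_injective t).1 hall
  let M₀ : Finset (V × V) := (P ×ˢ Q).filter (fun e => ∃ he : e.1 ∈ P, f ⟨e.1, he⟩ = Sum.inl e.2)
  have hmem : ∀ i v, f i = Sum.inl v → v ∈ Q ∧ r i.1 v := by
    intro i v hv
    have := hft i
    rw [hv, mem_union, mem_map, mem_map] at this
    rcases this with ⟨w, hw, hw'⟩ | ⟨w, hw, hw'⟩
    · have : w = v := Sum.inl_injective hw'
      subst this
      exact mem_filter.1 hw
    · simp at hw'
  have hM₀ : Mat r P Q M₀ := by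
    refine ⟨fun e he => ?_, fun e he e' he' hee => ?_⟩
    · obtain ⟨h1, h2, h3⟩ := mem_filter.1 he
      obtain ⟨h4, h5⟩ := hmem _ _ h3
      exact ⟨h2, h4, h5⟩
    · obtain ⟨h1, h2, h3⟩ := mem_filter.1 he
      obtain ⟨h1', h2', h3'⟩ := mem_filter.1 he'
      rcases hee with hee | hee
      · refine Prod.ext hee ?_
        have h6 : (⟨e.1, h2⟩ : {v // v ∈ P}) = ⟨e'.1, h2'⟩ := Subtype.ext hee
        rw [h6, h3'] at h3
        exact (Sum.inl_injective h3).symm
      · refine Prod.ext ?_ hee
        rw [hee, ← h3'] at h3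
        exact congrArg Subtype.val (hf h3)
  have hcard : q ≤ M₀.card := by
    have c1 : ((univ : Finset {v // v ∈ P}).filter (fun i => ∃ v, f i = Sum.inl v)).card ≤ M₀.card := by
      refine card_le_card_of_injOn (fun i => (i.1, Sum.elim id (fun _ => i.1) (f i))) ?_ ?_
      · intro i hi
        obtain ⟨v, hv⟩ := (mem_filter.1 hi).2
        simp only [hv, Sum.elim_inl, id]
        exact mem_filter.2 ⟨mem_product.2 ⟨i.2, (hmem _ _ hv).1⟩, i.2, hv⟩
      · intro i _ j _ hij
        exact Subtype.ext (congrArg Prod.fst hij)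
    have c2 : ((univ : Finset {v // v ∈ P}).filter (fun i => ¬ ∃ v, f i = Sum.inl v)).card ≤
        ((univ : Finset (Fin (m - Q.card))).map
          (⟨Sum.inr, Sum.inr_injective⟩ : Fin (m - Q.card) ↪ V ⊕ Fin (m - Q.card))).card := by
      refine card_le_card_of_injOn f ?_ (hf.injOn)
      intro i hi
      have h1 := (mem_filter.1 hi).2
      rcases hfi : f i with v | v
      · exact absurd ⟨v, hfi⟩ h1
      · exact mem_map_of_mem _ (mem_univ v)
    rw [card_map, card_univ, Fintype.card_fin] at c2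
    have c3 := card_filter_add_card_filter_not (s := (univ : Finset {v // v ∈ P}))
      (fun i => ∃ v, f i = Sum.inl v)
    rw [card_univ, Fintype.card_coe] at c3
    omega
  obtain ⟨M, hM, cM⟩ := exists_subset_card_eq hcard
  exact ⟨M, ⟨fun e he => hM₀.1 e (hM he), fun e he e' he' => hM₀.2 e (hM he) e' (hM he')⟩, cM⟩

theorem hasMinor_of_fam {V ι : Type} [Fintype ι] {G : SimpleGraph V} {m : ℕ} (F : ι → Set V)
    (h1 : ∀ i, (G.induce (F i)).Connected) (h2 : ∀ i j, i ≠ j → Disjoint (F i) (F j))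
    (h3 : ∀ i j, i ≠ j → ∃ u ∈ F i, ∃ v ∈ F j, G.Adj u v) (hm : m ≤ Fintype.card ι) :
    HasMinor G m := by
  obtain ⟨e⟩ : Nonempty (Fin m ↪ ι) :=
    Function.Embedding.nonempty_of_card_le (by rw [Fintype.card_fin]; exact hm)
  exact ⟨fun i => F (e i), fun i => h1 _, fun i j hij => h2 _ _ (fun hh => hij (e.injective hh)),
    fun i j hij => h3 _ _ (fun hh => hij (e.injective hh))⟩

theorem hasMinor_clique {V : Type} {G : SimpleGraph V} {m : ℕ} (s : Finset V)
    (hs : ∀ u ∈ s, ∀ v ∈ s, u ≠ v → G.Adj u v) (hm : m ≤ s.card) : HasMinor G m := by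
  refine hasMinor_of_fam (ι := {v // v ∈ s}) (fun i => {i.1}) (fun i => singleton_conn G _)
    (fun i j hij => ?_) (fun i j hij => ?_) (by rw [Fintype.card_coe]; exact hm)
  · rw [Set.disjoint_singleton]
    exact fun hh => hij (Subtype.ext hh)
  · exact ⟨i.1, rfl, j.1, rfl, hs _ i.2 _ j.2 (fun hh => hij (Subtype.ext hh))⟩

theorem card_three {V : Type} [Fintype V] [DecidableEq V] (cl : V → Fin 3) (i j l : Fin 3)
    (h1 : i ≠ j) (h2 : i ≠ l) (h3 : j ≠ l) :
    (univ.filter (fun v => cl v = i)).card + (univ.filter (fun v => cl v = j)).card +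
      (univ.filter (fun v => cl v = l)).card = Fintype.card V := by
  have e : (univ : Finset V) = univ.filter (fun v => cl v = i) ∪ (univ.filter (fun v => cl v = j) ∪
      univ.filter (fun v => cl v = l)) := by
    ext v
    simp only [mem_univ, mem_union, mem_filter, true_and, true_iff]
    have key : ∀ a i j l : Fin 3, i ≠ j → i ≠ l → j ≠ l → a = i ∨ a = j ∨ a = l := by decide
    exact key _ _ _ _ h1 h2 h3
  have d1 : Disjoint (univ.filter (fun v => cl v = j)) (univ.filter (fun v => cl v = l)) := by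
    rw [disjoint_left]
    intro v hv hv'
    exact h3 ((mem_filter.1 hv).2.symm.trans (mem_filter.1 hv').2)
  have d2 : Disjoint (univ.filter (fun v => cl v = i)) (univ.filter (fun v => cl v = j) ∪
      univ.filter (fun v => cl v = l)) := by
    rw [disjoint_left]
    intro v hv hv'
    rcases mem_union.1 hv' with hv' | hv'
    · exact h1 ((mem_filter.1 hv).2.symm.trans (mem_filter.1 hv').2)
    · exact h2 ((mem_filter.1 hv).2.symm.trans (mem_filter.1 hv').2)
  have := congrArg Finset.card e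
  rw [card_union_of_disjoint d2, card_union_of_disjoint d1, card_univ] at this
  omega

/-- **Full Hadwiger for three cliques with independence number two.** -/
theorem alpha2 {V : Type} [Fintype V] {G : SimpleGraph V} {k : ℕ} (cl : V → Fin 3)
    (hcl : ∀ u v, u ≠ v → cl u = cl v → G.Adj u v)
    (hα : ∀ a b c, a ≠ b → a ≠ c → b ≠ c → G.Adj a b ∨ G.Adj a c ∨ G.Adj b c)
    (hsep : ∀ A B : Finset V, A.Nonempty → B.Nonempty → Disjoint A B →
      (∀ a ∈ A, ∀ a' ∈ A, a ≠ a' → G.Adj a a') → (∀ a ∈ A, ∀ b ∈ B, ¬ G.Adj a b) →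
      ∃ S : Finset V, k + 1 ≤ S.card ∧ Disjoint S A ∧ Disjoint S B)
    (hn : 2 * k + 1 ≤ Fintype.card V) : HasMinor G (k + 1) := by
  classical
  -- largest class
  obtain ⟨i, -, hi⟩ := exists_max_image (univ : Finset (Fin 3))
    (fun i => (univ.filter (fun v => cl v = i)).card) univ_nonempty
  obtain ⟨j, l, hij, hil, hjl⟩ : ∃ j l : Fin 3, i ≠ j ∧ i ≠ l ∧ j ≠ l := by
    clear hi
    revert i
    decide
  set A := univ.filter (fun v => cl v = i) with hA
  set P := univ.filter (fun v => cl v = j) with hP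
  set Q := univ.filter (fun v => cl v = l) with hQ
  have hAc : ∀ u ∈ A, ∀ v ∈ A, u ≠ v → G.Adj u v := fun u hu v hv huv =>
    hcl u v huv ((mem_filter.1 hu).2.trans (mem_filter.1 hv).2.symm)
  have hPc : ∀ u ∈ P, ∀ v ∈ P, u ≠ v → G.Adj u v := fun u hu v hv huv =>
    hcl u v huv ((mem_filter.1 hu).2.trans (mem_filter.1 hv).2.symm)
  have hQc : ∀ u ∈ Q, ∀ v ∈ Q, u ≠ v → G.Adj u v := fun u hu v hv huv =>
    hcl u v huv ((mem_filter.1 hu).2.trans (mem_filter.1 hv).2.symm)
  by_cases hAk : k + 1 ≤ A.card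
  · exact hasMinor_clique A hAc hAk
  by_cases hclq : ∃ s : Finset V, (∀ u ∈ s, ∀ v ∈ s, u ≠ v → G.Adj u v) ∧ k + 1 ≤ s.card
  · obtain ⟨s, hs, hs'⟩ := hclq
    exact hasMinor_clique s hs hs'
  push Not at hclq hAk
  have hsum := card_three cl i j l hij hil hjl
  rw [← hA, ← hP, ← hQ] at hsum
  have hPA : P.card ≤ A.card := hi j (mem_univ _)
  have hQA : Q.card ≤ A.card := hi l (mem_univ _)
  have hPQ : Disjoint P Q := by
    rw [disjoint_left]
    intro v hv hv'
    exact hjl ((mem_filter.1 hv).2.symm.trans (mem_filter.1 hv').2)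
  have hAP : Disjoint A P := by
    rw [disjoint_left]
    intro v hv hv'
    exact hij ((mem_filter.1 hv).2.symm.trans (mem_filter.1 hv').2)
  have hAQ : Disjoint A Q := by
    rw [disjoint_left]
    intro v hv hv'
    exact hil ((mem_filter.1 hv).2.symm.trans (mem_filter.1 hv').2)
  obtain ⟨q, hq⟩ : ∃ q, q + A.card = k + 1 := ⟨k + 1 - A.card, by omega⟩
  -- matchings of both colours
  have hMG := exists_mat (fun y z => G.Adj y z) P Q (Fintype.card V - (k + 1)) q (by
    intro S hS T hT hST
    rcases S.eq_empty_or_nonempty with rfl | hS0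
    · have := card_le_card hT
      rw [card_empty]
      omega
    rcases T.eq_empty_or_nonempty with rfl | hT0
    · have := card_le_card hS
      rw [card_empty]
      omega
    have hd : Disjoint S T := disjoint_of_subset_left hS (disjoint_of_subset_right hT hPQ)
    obtain ⟨W, hW, hW1, hW2⟩ := hsep S T hS0 hT0 hd
      (fun a ha a' ha' => hPc a (hS ha) a' (hS ha')) hST
    have h1 : (W ∪ (S ∪ T)).card ≤ Fintype.card V := card_le_univ _
    rw [card_union_of_disjoint (disjoint_union_right.2 ⟨hW1, hW2⟩), card_union_of_disjoint hd] at h1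
    omega) (by omega)
  have hMH := exists_mat (fun y z => ¬ G.Adj y z) P Q k q (by
    intro S hS T hT hST
    have hd : Disjoint S T := disjoint_of_subset_left hS (disjoint_of_subset_right hT hPQ)
    have h1 := hclq (S ∪ T) (by
      intro u hu v hv huv
      rcases mem_union.1 hu with hu | hu <;> rcases mem_union.1 hv with hv | hv
      · exact hPc u (hS hu) v (hS hv) huv
      · exact not_not.1 (hST u hu v hv)
      · exact (not_not.1 (hST v hv u hu)).symm
      · exact hQc u (hT hu) v (hT hv) huv)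
    rw [card_union_of_disjoint hd] at h1
    omega) (by omega)
  obtain ⟨C, hC, hCd⟩ := cherries (g := fun y z => G.Adj y z) (h := fun y z => ¬ G.Adj y z)
    (fun y z h1 h2 => h2 h1) q P Q hPQ (fun y _ z _ => em _) (by omega) (by omega) hMG hMH
  -- properties of cherries
  have hCconn : ∀ t, (G.induce (C t : Set V)).Connected := by
    intro t
    rcases hC t with ⟨y, hy, y', hy', z, hz, h1, h2, h3⟩ | ⟨y, hy, z, hz, z', hz', h1, h2, h3⟩
    · have e1 : y ≠ y' := by
        rintro rfl
        exact h2 h1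
      have e2 : (C t : Set V) = ({y'} ∪ {y}) ∪ {z} := by
        rw [h3]; ext v
        simp only [coe_insert, coe_singleton, Set.mem_insert_iff, Set.mem_singleton_iff, Set.mem_union]
        tauto
      rw [e2]
      refine conn_two (conn_two (singleton_conn G _) (singleton_conn G _)
        ⟨y', rfl, y, rfl, hPc y' hy' y hy e1.symm⟩) (singleton_conn G _)
        ⟨y, Or.inr rfl, z, rfl, h1⟩
    · have e1 : z ≠ z' := by
        rintro rfl
        exact h2 h1
      have e2 : (C t : Set V) = ({y} ∪ {z}) ∪ {z'} := by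
        rw [h3]; ext v
        simp only [coe_insert, coe_singleton, Set.mem_insert_iff, Set.mem_singleton_iff, Set.mem_union]
        tauto
      rw [e2]
      exact conn_two (conn_two (singleton_conn G _) (singleton_conn G _) ⟨y, rfl, z, rfl, h1⟩)
        (singleton_conn G _) ⟨z, Or.inr rfl, z', rfl, hQc z hz z' hz' e1⟩
  have hCdom : ∀ t v, v ∉ C t → ∃ u ∈ C t, G.Adj v u := by
    intro t v hv
    rcases hC t with ⟨y, hy, y', hy', z, hz, h1, h2, h3⟩ | ⟨y, hy, z, hz, z', hz', h1, h2, h3⟩
    · rw [h3] at hv ⊢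
      simp only [mem_insert, mem_singleton, not_or] at hv
      have hyz : y' ≠ z := fun hh => disjoint_left.1 hPQ hy' (hh ▸ hz)
      rcases hα v y' z hv.2.1 hv.2.2 hyz with h4 | h4 | h4
      · exact ⟨y', by simp, h4⟩
      · exact ⟨z, by simp, h4⟩
      · exact absurd h4 h2
    · rw [h3] at hv ⊢
      simp only [mem_insert, mem_singleton, not_or] at hv
      have hyz : y ≠ z' := fun hh => disjoint_left.1 hPQ hy (hh ▸ hz')
      rcases hα v y z' hv.1 hv.2.2 hyz with h4 | h4 | h4
      · exact ⟨y, by simp, h4⟩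
      · exact ⟨z', by simp, h4⟩
      · exact absurd h4 h2
  have hCA : ∀ t, Disjoint A (C t) := by
    intro t
    refine disjoint_of_subset_right (hC t).sub ?_
    exact disjoint_union_right.2 ⟨hAP, hAQ⟩
  have hCne : ∀ t, ∃ v, v ∈ C t := by
    intro t
    rcases hC t with ⟨y, hy, y', hy', z, hz, h1, h2, h3⟩ | ⟨y, hy, z, hz, z', hz', h1, h2, h3⟩
    · exact ⟨y, by rw [h3]; simp⟩
    · exact ⟨y, by rw [h3]; simp⟩
  refine hasMinor_of_fam (ι := {v // v ∈ A} ⊕ Fin q)
    (fun x => Sum.elim (fun v => {v.1}) (fun t => (C t : Set V)) x) ?_ ?_ ?_ ?_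
  · rintro (v | t)
    · exact singleton_conn G _
    · exact hCconn t
  · rintro (v | t) (w | s) hne
    · simp only [Sum.elim_inl]
      rw [Set.disjoint_singleton]
      exact fun hh => hne (congrArg Sum.inl (Subtype.ext hh))
    · simp only [Sum.elim_inl, Sum.elim_inr]
      rw [Set.disjoint_singleton_left]
      exact fun hh => disjoint_left.1 (hCA s) v.2 hh
    · simp only [Sum.elim_inl, Sum.elim_inr]
      rw [Set.disjoint_singleton_right]
      exact fun hh => disjoint_left.1 (hCA t) w.2 hh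
    · simp only [Sum.elim_inr]
      rw [disjoint_coe]
      exact hCd t s (fun hh => hne (congrArg Sum.inr hh))
  · rintro (v | t) (w | s) hne
    · exact ⟨v.1, rfl, w.1, rfl, hAc _ v.2 _ w.2 (fun hh => hne (congrArg Sum.inl (Subtype.ext hh)))⟩
    · obtain ⟨u, hu, hvu⟩ := hCdom s v.1 (disjoint_left.1 (hCA s) v.2)
      exact ⟨v.1, rfl, u, hu, hvu⟩
    · obtain ⟨u, hu, hvu⟩ := hCdom t w.1 (disjoint_left.1 (hCA t) w.2)
      exact ⟨u, hu, w.1, rfl, hvu.symm⟩
    · obtain ⟨v, hv⟩ := hCne s
      obtain ⟨u, hu, hvu⟩ := hCdom t v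
        (fun hh => disjoint_left.1 (hCd t s (fun hh => hne (congrArg Sum.inr hh))) hh hv)
      exact ⟨u, hu, v, hv, hvu.symm⟩
  · rw [Fintype.card_sum, Fintype.card_coe, Fintype.card_fin]
    omega

open scoped Classical in
/-- the same with separators in the form of `big` -/
theorem alpha2_big {V : Type} [Fintype V] {G : SimpleGraph V} {k : ℕ} (cl : V → Fin 3)
    (hcl : ∀ u v, u ≠ v → cl u = cl v → G.Adj u v)
    (hα : ∀ a b c, a ≠ b → a ≠ c → b ≠ c → G.Adj a b ∨ G.Adj a c ∨ G.Adj b c)
    (hsep : ∀ A B : Finset V, Disjoint A B → A.Nonempty → B.Nonempty → (∀ a ∈ A, ∀ b ∈ B, ¬ G.Adj a b) →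
      k + 1 ≤ (univ \ (A ∪ B)).card)
    (hn : 2 * k + 1 ≤ Fintype.card V) : HasMinor G (k + 1) :=
  alpha2 cl hcl hα (fun A B hA hB hd _ hAB => ⟨univ \ (A ∪ B), hsep A B hd hA hB hAB,
    disjoint_of_subset_right subset_union_left sdiff_disjoint,
    disjoint_of_subset_right subset_union_right sdiff_disjoint⟩) hn

end Pool.Agent.T3F
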