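import Mathlib
import Pool.Agent.HM.Reduce
import Pool.Agent.T3F.Big
import Pool.Agent.T3F.Alpha2
import Pool.Agent.T3.Sep

/-!
# Hadwiger's conjecture for graphs covered by three cliques: the assembly
-/

set_option autoImplicit false

namespace Pool.Agent.T3F

open Finset Pool.Agent.CA31 Pool.Agent.CA72
open scoped Classical

/-- union of three cliques -/
def Three (V : Type) (G : SimpleGraph V) : Prop :=
  ∃ cl : V → Fin 3, ∀ u v, u ≠ v → cl u = cl v → G.Adj u v

theorem Three.quot {V W : Type} {G : SimpleGraph V} {f : W → Set V} (h : Three V G)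
    (hc : ∀ i, (G.induce (f i)).Connected) (hd : ∀ i j, i ≠ j → Disjoint (f i) (f j)) :
    Three W (QG G f) := by
  obtain ⟨cl, hcl⟩ := h
  have hch : ∀ i, ∃ v, v ∈ f i := fun i => ⟨(hc i).nonempty.some.1, (hc i).nonempty.some.2⟩
  choose g hg using hch
  refine ⟨fun i => cl (g i), ?_⟩
  intro i j hij hcij
  have hne : g i ≠ g j := fun h => Set.disjoint_left.1 (hd i j hij) (hg i) (h ▸ hg j)
  exact ⟨hij, g i, hg i, g j, hg j, hcl _ _ hne hcij⟩

/-- Hadwiger's conjecture for graphs whose vertex set is the union of three cliques -/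
theorem hadwiger_three {V : Type} [Fintype V] {G : SimpleGraph V}
    (cl : V → Fin 3) (hcl : ∀ u v, u ≠ v → cl u = cl v → G.Adj u v) {k : ℕ}
    (hk : ¬ G.Colorable k) : HasMinor G (k + 1) := by
  refine HM.reduce Three (fun V W G f h hc hd => h.quot hc hd) ?_ V G k ⟨cl, hcl⟩ hk
  clear hk hcl cl
  intro V _ G k ⟨cl, hcl⟩ hk hcc hclq hn
  have hsep : ∀ A B : Finset V, Disjoint A B → A.Nonempty → B.Nonempty →
      (∀ a ∈ A, ∀ b ∈ B, ¬ G.Adj a b) → k + 1 ≤ (univ \ (A ∪ B)).card :=
    fun A B hAB hA hB hno => T3.sep cl hcl hk hcc A B hAB hA hB hno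
  rcases hn with hn | ⟨hn, hα⟩
  · exact big cl hcl hk hsep hclq (by omega)
  · exact alpha2_big cl hcl hα hsep (by omega)

end Pool.Agent.T3F
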